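import Pool.Agent.E8helper14.LI.Prod

/-! # The mean of the exponential of a trigonometric sum -/

set_option autoImplicit false

namespace Pool.Agent.E8helper14.LI

open Filter Topology MeasureTheory

/-- `I_0(2 c)` -/
noncomputable def I0 (c : ℝ) : ℝ := ∑' k : ℕ, (c ^ k / (k.factorial : ℝ)) ^ 2

/-- the mean over `[0, V]` -/
noncomputable def mn (F : ℝ → ℝ) (V : ℝ) : ℝ := V⁻¹ * ∫ v in (0 : ℝ)..V, F v

lemma mn_cos_le (l V : ℝ) (hV : 0 < V) : |mn (fun v => Real.cos (l * v)) V| ≤ 1 := by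
  unfold mn
  have h1 : ‖∫ v in (0 : ℝ)..V, Real.cos (l * v)‖ ≤ 1 * |V - 0| :=
    intervalIntegral.norm_integral_le_of_norm_le_const fun v _ => by
      rw [Real.norm_eq_abs]; exact Real.abs_cos_le_one _
  rw [sub_zero, one_mul, abs_of_pos hV, Real.norm_eq_abs] at h1
  rw [abs_mul, abs_of_pos (inv_pos.2 hV)]
  calc V⁻¹ * |∫ v in (0 : ℝ)..V, Real.cos (l * v)| ≤ V⁻¹ * V :=
        mul_le_mul_of_nonneg_left h1 (inv_pos.2 hV).le
    _ = 1 := inv_mul_cancel₀ hV.ne'

open Classical in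
lemma mn_cos_tendsto (l : ℝ) :
    Tendsto (mn (fun v => Real.cos (l * v))) atTop (𝓝 (if l = 0 then 1 else 0)) := by
  split_ifs with h
  · refine tendsto_const_nhds.congr' ?_
    filter_upwards [eventually_gt_atTop 0] with V hV
    unfold mn
    simp only [h, zero_mul, Real.cos_zero, intervalIntegral.integral_const, sub_zero, smul_eq_mul,
      mul_one]
    rw [inv_mul_cancel₀ hV.ne']
  · have h1 : ∀ V : ℝ, mn (fun v => Real.cos (l * v)) V = V⁻¹ * (l⁻¹ * Real.sin (l * V)) := by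
      intro V
      unfold mn
      rw [intervalIntegral.integral_comp_mul_left (fun v => Real.cos v) h, integral_cos]
      simp
    have h2 : Tendsto (fun V : ℝ => V⁻¹ * |l⁻¹|) atTop (𝓝 0) := by
      have := (tendsto_inv_atTop_zero (𝕜 := ℝ)).mul_const |l⁻¹|
      simpa using this
    refine squeeze_zero_norm' ?_ h2
    filter_upwards [eventually_gt_atTop 0] with V hV
    rw [h1, Real.norm_eq_abs, abs_mul, abs_mul, abs_of_pos (inv_pos.2 hV)]
    have h3 := Real.abs_sin_le_one (l * V)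
    have h4 : |l⁻¹| * |Real.sin (l * V)| ≤ |l⁻¹| * 1 := mul_le_mul_of_nonneg_left h3 (abs_nonneg _)
    rw [mul_one] at h4
    exact mul_le_mul_of_nonneg_left h4 (inv_pos.2 hV).le

section fin

variable {κ : Type*} [Fintype κ]

/-- the Fourier coefficients of `exp (∑ c e^{iθ})` -/
noncomputable def gw (c : κ → ℝ) (x : κ → ℕ) : ℝ := ∏ k, c k ^ x k / ((x k).factorial : ℝ)

/-- the linear form -/
noncomputable def fr (γ : κ → ℝ) (x : κ → ℕ) : ℝ := ∑ k, (x k : ℝ) * γ k

lemma gw_nonneg {c : κ → ℝ} (hc : ∀ k, 0 ≤ c k) (x : κ → ℕ) : 0 ≤ gw c x :=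
  Finset.prod_nonneg fun k _ => div_nonneg (pow_nonneg (hc k) _) (Nat.cast_nonneg _)

lemma gw_summable {c : κ → ℝ} (hc : ∀ k, 0 ≤ c k) : Summable (gw c) := by
  have h := pi_summable (κ := κ) (f := fun k n => c k ^ n / (n.factorial : ℝ))
    (fun k n => div_nonneg (pow_nonneg (hc k) _) (Nat.cast_nonneg _))
    (fun k => Real.summable_pow_div_factorial (c k))
  exact h

lemma gw_sq {c : κ → ℝ} (hc : ∀ k, 0 ≤ c k) : HasSum (fun x => gw c x ^ 2) (∏ k, I0 (c k)) := by
  have hs : ∀ k, Summable (fun n : ℕ => ‖(c k ^ n / (n.factorial : ℝ)) ^ 2‖) := by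
    intro k
    refine Summable.of_nonneg_of_le (fun n => norm_nonneg _) (fun n => ?_)
      ((Real.summable_pow_div_factorial (c k)).mul_left (Real.exp (c k)))
    have h0 : 0 ≤ c k ^ n / (n.factorial : ℝ) := div_nonneg (pow_nonneg (hc k) _) (Nat.cast_nonneg _)
    rw [norm_pow, Real.norm_of_nonneg h0, sq]
    exact mul_le_mul_of_nonneg_right (Real.pow_div_factorial_le_exp _ (hc k) n) h0
  have h := (pi_tsum (𝕜 := ℝ) hs).2
  have e : (fun x : κ → ℕ => gw c x ^ 2) = fun x => ∏ k, (c k ^ x k / ((x k).factorial : ℝ)) ^ 2 := by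
    funext x
    unfold gw
    rw [Finset.prod_pow]
  rw [e]
  exact h

lemma exp_cos_eq {c γ : κ → ℝ} (hc : ∀ k, 0 ≤ c k) (v : ℝ) :
    HasSum (fun p : (κ → ℕ) × (κ → ℕ) => gw c p.1 * gw c p.2 * Real.cos ((fr γ p.1 - fr γ p.2) * v))
      (Real.exp (∑ k, 2 * c k * Real.cos (γ k * v))) := by
  set f : κ → ℕ → ℂ := fun k n => ((c k : ℂ) * Complex.exp ((γ k * v : ℝ) * Complex.I)) ^ n / (n.factorial : ℂ) with hf
  have hfs : ∀ k, Summable (fun n => ‖f k n‖) := by
    intro k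
    refine (Real.summable_pow_div_factorial (c k)).congr fun n => ?_
    simp only [hf]
    rw [norm_div, norm_pow, norm_mul, Complex.norm_exp_ofReal_mul_I, mul_one, Complex.norm_real,
      Real.norm_of_nonneg (hc k), Complex.norm_natCast]
  obtain ⟨h1, h2⟩ := pi_tsum hfs
  have h3 : ∏ k, ∑' n, f k n = Complex.exp (∑ k, (c k : ℂ) * Complex.exp ((γ k * v : ℝ) * Complex.I)) := by
    rw [Complex.exp_sum]
    refine Finset.prod_congr rfl fun k _ => ?_
    simp only [hf]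
    rw [Complex.exp_eq_exp_ℂ, NormedSpace.exp_eq_tsum_div]
  have h4 : ∀ x : κ → ℕ, ∏ k, f k (x k) = (gw c x : ℂ) * Complex.exp ((fr γ x * v : ℝ) * Complex.I) := by
    intro x
    simp only [hf]
    have e1 : ∀ k, ((c k : ℂ) * Complex.exp ((γ k * v : ℝ) * Complex.I)) ^ (x k) / ((x k).factorial : ℂ) =
        ((c k ^ x k / ((x k).factorial : ℝ) : ℝ) : ℂ) * Complex.exp (((x k : ℝ) * γ k * v : ℝ) * Complex.I) := by
      intro k
      rw [mul_pow, ← Complex.exp_nat_mul]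
      push_cast
      rw [mul_div_right_comm]
      congr 2
      ring
    simp_rw [e1]
    rw [Finset.prod_mul_distrib, ← Complex.exp_sum]
    unfold gw fr
    push_cast
    congr 2
    rw [Finset.sum_mul, Finset.sum_mul]
  rw [h3] at h2
  set E : ℂ := Complex.exp (∑ k, (c k : ℂ) * Complex.exp ((γ k * v : ℝ) * Complex.I)) with hE
  have h5 : HasSum (fun x : κ → ℕ => (starRingEnd ℂ) (∏ k, f k (x k))) ((starRingEnd ℂ) E) :=
    (Complex.hasSum_conj').2 h2
  have h6 : Summable (fun x : κ → ℕ => ‖(starRingEnd ℂ) (∏ k, f k (x k))‖) := by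
    refine h1.congr fun x => ?_
    rw [RCLike.norm_conj]
  have h7 : HasSum (fun p : (κ → ℕ) × (κ → ℕ) => (∏ k, f k (p.1 k)) * (starRingEnd ℂ) (∏ k, f k (p.2 k)))
      (E * (starRingEnd ℂ) E) := by
    have := (summable_mul_of_summable_norm h1 h6).hasSum
    have e := tsum_mul_tsum_of_summable_norm h1 h6
    rw [← e, h2.tsum_eq, h5.tsum_eq] at this
    exact this
  have h8 := Complex.hasSum_re h7
  have h9 : (E * (starRingEnd ℂ) E).re = Real.exp (∑ k, 2 * c k * Real.cos (γ k * v)) := by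
    rw [hE, ← Complex.exp_conj, ← Complex.exp_add]
    have : (∑ k, (c k : ℂ) * Complex.exp ((γ k * v : ℝ) * Complex.I)) +
        (starRingEnd ℂ) (∑ k, (c k : ℂ) * Complex.exp ((γ k * v : ℝ) * Complex.I)) =
        ((∑ k, 2 * c k * Real.cos (γ k * v) : ℝ) : ℂ) := by
      rw [Complex.add_conj, Complex.re_sum, Complex.ofReal_inj]
      rw [Finset.mul_sum]
      refine Finset.sum_congr rfl fun k _ => ?_
      rw [Complex.re_ofReal_mul, Complex.exp_ofReal_mul_I_re]
      ring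
    rw [this, ← Complex.ofReal_exp, Complex.ofReal_re]
  rw [h9] at h8
  refine h8.congr_fun fun p => ?_
  rw [h4, h4, map_mul, Complex.conj_ofReal, ← Complex.exp_conj]
  have e2 : (starRingEnd ℂ) (((fr γ p.2 * v : ℝ) : ℂ) * Complex.I) = ((-(fr γ p.2 * v) : ℝ) : ℂ) * Complex.I := by
    rw [map_mul, Complex.conj_ofReal, Complex.conj_I]; push_cast; ring
  rw [e2]
  have e3 : (gw c p.1 : ℂ) * Complex.exp ((fr γ p.1 * v : ℝ) * Complex.I) *
      ((gw c p.2 : ℂ) * Complex.exp (((-(fr γ p.2 * v) : ℝ) : ℂ) * Complex.I)) =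
      ((gw c p.1 * gw c p.2 : ℝ) : ℂ) * Complex.exp ((((fr γ p.1 - fr γ p.2) * v : ℝ) : ℂ) * Complex.I) := by
    push_cast
    rw [show ((fr γ p.1 : ℂ) - (fr γ p.2 : ℂ)) * (v : ℂ) * Complex.I = (fr γ p.1 : ℂ) * v * Complex.I +
      -((fr γ p.2 : ℂ) * v) * Complex.I by ring, Complex.exp_add]
    ring
  rw [e3, Complex.re_ofReal_mul, Complex.exp_ofReal_mul_I_re]

end fin

end Pool.Agent.E8helper14.LI
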