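import Pool.Agent.E8helper14.LI.Gs
import Pool.Agent.E8helper14.LI.Mean

/-! # The prime powers not coprime to `q`, and a Cesàro lemma -/

set_option autoImplicit false

namespace Pool.Agent.E8helper14.LI

open Filter Topology MeasureTheory Set

/-- the weight of the prime powers not coprime to `q` -/
noncomputable def bw (q n : ℕ) : ℝ :=
  if n.Coprime q then 0 else ArithmeticFunction.vonMangoldt n * Real.exp (-(Real.log n / 4))

lemma bw_nonneg (q n : ℕ) : 0 ≤ bw q n := by
  unfold bw
  split_ifs
  · exact le_rfl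
  · exact mul_nonneg ArithmeticFunction.vonMangoldt_nonneg (Real.exp_pos _).le

lemma bw_summable (q : ℕ) (hq : 0 < q) : Summable (bw q) := by
  classical
  set g : ℕ → ℕ → ℝ := fun p n => if n ∈ Set.range (fun k : ℕ => p ^ (k + 1)) then
    Real.log p * Real.exp (-(Real.log n / 4)) else 0 with hg
  have hgs : ∀ p ∈ q.primeFactors, Summable (g p) := by
    intro p hp
    have hpp := Nat.prime_of_mem_primeFactors hp
    have hinj : Function.Injective (fun k : ℕ => p ^ (k + 1)) := by
      intro a b hab
      have := Nat.pow_right_injective hpp.two_le hab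
      omega
    rw [← hinj.summable_iff (by
      intro x hx
      simp only [hg, if_neg hx])]
    have hlp : 0 < Real.log p := Real.log_pos (by exact_mod_cast hpp.one_lt)
    have h1 : Summable (fun k : ℕ => (Real.log p * Real.exp (-(Real.log p / 4))) * Real.exp (-(Real.log p / 4)) ^ k) := by
      refine (summable_geometric_of_lt_one (Real.exp_pos _).le ?_).mul_left _
      rw [Real.exp_lt_one_iff]
      linarith
    refine h1.congr fun k => ?_
    simp only [hg, Function.comp]
    rw [if_pos ⟨k, rfl⟩, Nat.cast_pow, Real.log_pow, mul_assoc, ← Real.exp_nat_mul, ← Real.exp_add]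
    congr 2
    push_cast
    ring
  have hsum : Summable (fun n => ∑ p ∈ q.primeFactors, g p n) := summable_sum hgs
  refine Summable.of_nonneg_of_le (bw_nonneg q) (fun n => ?_) hsum
  have hgn : ∀ p ∈ q.primeFactors, 0 ≤ g p n := by
    intro p hp
    simp only [hg]
    split_ifs
    · exact mul_nonneg (Real.log_nonneg (by exact_mod_cast (Nat.prime_of_mem_primeFactors hp).one_lt.le)) (Real.exp_pos _).le
    · exact le_rfl
  unfold bw
  split_ifs with hc
  · exact Finset.sum_nonneg hgn
  · by_cases hpp : IsPrimePow n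
    · obtain ⟨p, k, hp, hk, rfl⟩ := hpp
      have hp' : p.Prime := hp.nat_prime
      have hpq : p ∣ q := by
        by_contra hnd
        exact hc ((Nat.Prime.coprime_iff_not_dvd hp').2 hnd |>.pow_left k)
      have hmem : p ∈ q.primeFactors := Nat.mem_primeFactors.2 ⟨hp', hpq, hq.ne'⟩
      refine le_trans (le_of_eq ?_) (Finset.single_le_sum hgn hmem)
      simp only [hg]
      rw [if_pos ⟨k - 1, by simp only; rw [Nat.sub_add_cancel hk]⟩,
        ArithmeticFunction.vonMangoldt_apply_pow hk.ne', ArithmeticFunction.vonMangoldt_apply_prime hp']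
    · rw [ArithmeticFunction.vonMangoldt_eq_zero_iff.2 hpp, zero_mul]
      exact Finset.sum_nonneg hgn

/-- Cesàro means of a function tending to zero -/
lemma mn_zero {f : ℝ → ℝ} (hf : Continuous f) (h : Tendsto f atTop (𝓝 0)) : Tendsto (mn f) atTop (𝓝 0) := by
  rw [Metric.tendsto_atTop]
  intro ε hε
  obtain ⟨V0, hV0⟩ := (Metric.tendsto_atTop.1 h) (ε / 4) (by positivity)
  set V1 := max V0 1 with hV1
  set C := ∫ v in (0 : ℝ)..V1, |f v| with hC
  have hCn : 0 ≤ C := intervalIntegral.integral_nonneg (by positivity) fun v _ => abs_nonneg _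
  refine ⟨max V1 (4 * C / ε + 1), fun V hV => ?_⟩
  have hVV1 : V1 ≤ V := le_trans (le_max_left _ _) hV
  have hVp : 0 < V := lt_of_lt_of_le (lt_of_lt_of_le one_pos (le_max_right V0 1)) hVV1
  have hfi : ∀ a b : ℝ, IntervalIntegrable f volume a b := fun a b => hf.intervalIntegrable a b
  have h1 : ∫ v in (0 : ℝ)..V, f v = (∫ v in (0 : ℝ)..V1, f v) + ∫ v in V1..V, f v :=
    (intervalIntegral.integral_add_adjacent_intervals (hfi _ _) (hfi _ _)).symm
  have h2 : |∫ v in (0 : ℝ)..V1, f v| ≤ C := intervalIntegral.abs_integral_le_integral_abs (by positivity)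
  have h3 : |∫ v in V1..V, f v| ≤ ε / 4 * |V - V1| := by
    rw [← Real.norm_eq_abs]
    refine intervalIntegral.norm_integral_le_of_norm_le_const fun v hv => ?_
    rw [uIoc_of_le hVV1] at hv
    have h4 := hV0 v (le_trans (le_max_left _ _) hv.1.le)
    rw [dist_zero_right] at h4
    exact h4.le
  rw [abs_of_nonneg (sub_nonneg.2 hVV1)] at h3
  have h4 : C / V ≤ ε / 4 := by
    rw [div_le_iff₀ hVp]
    have h5 : 4 * C / ε + 1 ≤ V := le_trans (le_max_right _ _) hV
    have h6 : 4 * C / ε ≤ V := by linarith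
    rw [div_le_iff₀ hε] at h6
    linarith
  rw [dist_zero_right]
  unfold mn
  rw [norm_mul, norm_inv, Real.norm_of_nonneg hVp.le, Real.norm_eq_abs, h1]
  have h5 : |(∫ v in (0 : ℝ)..V1, f v) + ∫ v in V1..V, f v| ≤ C + ε / 4 * (V - V1) :=
    (abs_add_le _ _).trans (add_le_add h2 h3)
  have h6 : ε / 4 * (V - V1) ≤ ε / 4 * V := by
    have : 0 ≤ V1 := by positivity
    nlinarith
  calc V⁻¹ * |(∫ v in (0 : ℝ)..V1, f v) + ∫ v in V1..V, f v| ≤ V⁻¹ * (C + ε / 4 * V) :=
        mul_le_mul_of_nonneg_left (by linarith) (inv_nonneg.2 hVp.le)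
    _ = C / V + ε / 4 := by field_simp
    _ < ε := by linarith

end Pool.Agent.E8helper14.LI
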