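import Pool.Agent.E8helper14.LI.Pk
import Pool.Agent.E8helper22.MW.EX1
import Pool.Agent.H385R2.Prim
import Pool.Agent.H370R2.DirGood

/-! # The packages of the Dirichlet L-functions -/

set_option autoImplicit false

namespace Pool.Agent.E8helper14.LI

open MeasureTheory Set Filter Topology Complex
open scoped ComplexConjugate
open Pool.Agent.Y23.G Pool.Agent.TH839.NA Pool.Agent.W355.UN Pool.Agent.W355.LJ H353.E

variable {a : ℝ}

open Classical in
/-- the multiplicity of a zero in the strip -/
noncomputable def mD (q : ℕ) (χ : DirichletCharacter ℂ q) (s : ℂ) : ℕ :=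
  if 0 < s.re ∧ s.re < 1 then analyticOrderNatAt (H385.LF q χ) s else 0

/-- the coefficients -/
noncomputable def bD (q : ℕ) (χ : DirichletCharacter ℂ q) (n : ℕ) : ℂ :=
  ((ArithmeticFunction.vonMangoldt n : ℝ) : ℂ) * (χ (n : ZMod q) * pw (-(1 / 2)) n)

lemma pk_prim (ha : 0 < a) {q : ℕ} [NeZero q] (χ : DirichletCharacter ℂ q) (hq : 1 < q) (hχ : χ.IsPrimitive) :
    Pk a (mD q χ) 0 (bD q χ) := by
  obtain ⟨X, hX⟩ := Pool.Agent.E8helper22.MW.dir_data χ hq hχ
  set L : LFun := Pool.Agent.E8helper22.MW.LD χ X hX with hL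
  have hm : ∀ s, mX (L := L) s = mD q χ s := by
    intro s
    unfold mD
    split_ifs with hs
    · have := Pool.Agent.E8helper22.MW.X_mult hq hχ hX hs.1
      rw [H385.LF, dif_neg (NeZero.ne q)]
      exact this
    · refine mX_zero (L := L) fun h0 => hs ?_
      exact ((Pool.Agent.E8helper22.MW.X_zero_iff hq hχ hX s).1 h0).2
  have h := pk_lfun ha L (mD q χ) hm (fun s hs => by
    unfold mD at hs
    by_contra hc
    rw [if_neg hc] at hs
    exact hs rfl)
  exact h

/-- the data of zeta -/
@[reducible] noncomputable def ZL : LFun where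
  m := 1
  r := 1
  N := 1
  a := fun _ => 0
  b := fun _ => 1
  c := fun n => if n = 0 then 0 else 1
  X := fun s => s * (s - 1) * completedRiemannZeta₀ s + 1
  raw := by
    have h := zeta_raw
    refine ⟨le_rfl, le_rfl, le_rfl, by norm_num, by norm_num, fun j => by norm_num, h.entire, h.order, h.fe, rfl,
      fun n => ?_, ?_, ?_⟩
    · split_ifs with hn
      · rw [norm_zero]; positivity
      · rw [norm_one, Nat.cast_one, one_mul]
        exact Real.one_le_rpow (by exact_mod_cast Nat.one_le_iff_ne_zero.2 hn) (by norm_num)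
    · have h2 := h.conv
      intro n hn
      rw [h2 n hn]
      refine Finset.sum_congr rfl fun d hd => ?_
      simp only [if_neg (Nat.pos_of_mem_divisors hd).ne']
    · obtain ⟨σ, h2⟩ := h.eq
      refine ⟨σ, fun s hs => ?_⟩
      rw [h2 s hs]
      congr 3
  str := fun j => by norm_num

lemma zeta_X {s : ℂ} (hs : 0 < s.re) (hs1 : s ≠ 1) :
    s * (s - 1) * completedRiemannZeta₀ s + 1 = (s * (s - 1) * Gammaℝ s) * riemannZeta s := by
  have hs0 : s ≠ 0 := by
    rintro rfl
    simp at hs
  have hG : Gammaℝ s ≠ 0 := Gammaℝ_ne_zero_of_re_pos hs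
  have hs2 : s - 1 ≠ 0 := sub_ne_zero.2 hs1
  have hs3 : 1 - s ≠ 0 := sub_ne_zero.2 (Ne.symm hs1)
  rw [riemannZeta_def_of_ne_zero hs0, completedRiemannZeta_eq]
  field_simp
  ring

lemma zeta_X_zero (s : ℂ) : (s * (s - 1) * completedRiemannZeta₀ s + 1 = 0) →
    0 < s.re ∧ s.re < 1 := by
  intro h0
  have hr : ∀ z : ℂ, 1 ≤ z.re → z * (z - 1) * completedRiemannZeta₀ z + 1 ≠ 0 := by
    intro z hz hz0
    by_cases h1 : z = 1
    · subst h1
      simp at hz0
    · rw [zeta_X (by linarith) h1] at hz0
      rcases mul_eq_zero.1 hz0 with h2 | h2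
      · have hz00 : z ≠ 0 := by
          rintro rfl
          simp at hz
          linarith
        exact mul_ne_zero (mul_ne_zero hz00 (sub_ne_zero.2 h1)) (Gammaℝ_ne_zero_of_re_pos (by linarith)) h2
      · exact riemannZeta_ne_zero_of_one_le_re hz h2
  constructor
  · by_contra hcon
    have h3 := X_zero (L := ZL) (s := s) h0
    exact hr (1 - conj s) (by simp; linarith) h3
  · by_contra hcon
    exact hr s (by linarith) h0

lemma pk_zeta (ha : 0 < a) (χ : DirichletCharacter ℂ 1) : Pk a (mD 1 χ) 1 (bD 1 χ) := by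
  have hm : ∀ s, mX (L := ZL) s = mD 1 χ s := by
    intro s
    unfold mD
    split_ifs with hs
    · have hs1 : s ≠ 1 := by
        rintro rfl
        simp at hs
      rw [H385.LF, dif_neg one_ne_zero]
      have hL : (DirichletCharacter.LFunction χ) = riemannZeta := DirichletCharacter.LFunction_modOne_eq
      rw [hL]
      unfold mX analyticOrderNatAt
      congr 1
      have ho : {z : ℂ | 0 < z.re ∧ z ≠ 1} ∈ 𝓝 s :=
        ((isOpen_lt continuous_const continuous_re).inter isOpen_compl_singleton).mem_nhds ⟨hs.1, hs1⟩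
      have hev : (ZL.X : ℂ → ℂ) =ᶠ[𝓝 s] (fun s => s * (s - 1) * Gammaℝ s) * riemannZeta := by
        filter_upwards [ho] with z hz
        exact zeta_X hz.1 hz.2
      have hg : AnalyticAt ℂ (fun s : ℂ => s * (s - 1) * Gammaℝ s) s := by
        have hd : DifferentiableOn ℂ (fun s : ℂ => s * (s - 1) * Gammaℝ s) {z : ℂ | 0 < z.re} := by
          intro z hz
          have := Pool.Agent.E8helper22.MW.gammaR_an hz
          exact DifferentiableAt.differentiableWithinAt (by fun_prop)
        exact hd.analyticAt ((isOpen_lt continuous_const continuous_re).mem_nhds hs.1)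
      have hz : AnalyticAt ℂ riemannZeta s := by
        have hd : DifferentiableOn ℂ riemannZeta {(1 : ℂ)}ᶜ := fun z hz =>
          (differentiableAt_riemannZeta hz).differentiableWithinAt
        exact hd.analyticAt (isOpen_compl_singleton.mem_nhds hs1)
      have hs0 : s ≠ 0 := by
        rintro rfl
        simp at hs
      rw [analyticOrderAt_congr hev, analyticOrderAt_mul hg hz, (hg.analyticOrderAt_eq_zero).2
        (mul_ne_zero (mul_ne_zero hs0 (sub_ne_zero.2 hs1)) (Gammaℝ_ne_zero_of_re_pos hs.1)), zero_add]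
    · exact mX_zero (L := ZL) fun h0 => hs (zeta_X_zero s h0)
  have h := pk_lfun ha ZL (mD 1 χ) hm (fun s hs => by
    unfold mD at hs
    by_contra hc
    rw [if_neg hc] at hs
    exact hs rfl)
  have hb : (Pool.Agent.Y23.G.aL (L := ZL)) = bD 1 χ := by
    funext n
    unfold Pool.Agent.Y23.G.aL bD
    rcases Nat.eq_zero_or_pos n with rfl | hn
    · simp
    · have h1 : χ (n : ZMod 1) = 1 := by
        rw [Subsingleton.elim (n : ZMod 1) 1, map_one]
      rw [h1]
      show _ * ((if n = 0 then (0 : ℂ) else 1) * _) = _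
      rw [if_neg hn.ne']
  rw [hb] at h
  exact h

lemma bD_bd (q : ℕ) (χ : DirichletCharacter ℂ q) (n : ℕ) : ‖bD q χ n‖ ≤ 1 * ArithmeticFunction.vonMangoldt n := by
  unfold bD
  rcases Nat.eq_zero_or_pos n with rfl | hn
  · simp
  rw [norm_mul, norm_mul, Complex.norm_real, Real.norm_of_nonneg ArithmeticFunction.vonMangoldt_nonneg, one_mul]
  have h1 : ‖χ (n : ZMod q)‖ ≤ 1 := χ.norm_le_one _
  have h2 : ‖pw (-(1 / 2)) n‖ ≤ 1 := by
    unfold pw
    rw [Complex.norm_real, Real.norm_of_nonneg (by positivity)]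
    exact Real.rpow_le_one_of_one_le_of_nonpos (by exact_mod_cast hn) (by norm_num)
  have h3 : ‖χ (n : ZMod q)‖ * ‖pw (-(1 / 2)) n‖ ≤ 1 := mul_le_one₀ h1 (norm_nonneg _) h2
  calc _ ≤ ArithmeticFunction.vonMangoldt n * 1 :=
        mul_le_mul_of_nonneg_left h3 ArithmeticFunction.vonMangoldt_nonneg
    _ = _ := mul_one _

lemma pw_half {n : ℕ} (hn : 0 < n) : ‖pw (-(1 / 2)) n‖ = Real.exp (-(Real.log n / 2)) := by
  unfold pw
  rw [Complex.norm_real, Real.norm_of_nonneg (by positivity), Real.rpow_def_of_pos (by exact_mod_cast hn)]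
  congr 1
  ring

open Classical in
/-- **every character** -/
theorem pk_all (ha : 0 < a) {q : ℕ} [NeZero q] (χ : DirichletCharacter ℂ q) :
    Pk a (mD q χ) (if χ = 1 then 1 else 0) (bD q χ) := by
  have hc : χ.conductor ≠ 0 := χ.conductor_ne_zero
  have : NeZero χ.conductor := ⟨hc⟩
  have hq : 0 < q := NeZero.pos q
  -- the primitive character
  have h1 : Pk a (mD χ.conductor χ.primitiveCharacter) (if χ = 1 then 1 else 0)
      (bD χ.conductor χ.primitiveCharacter) := by
    by_cases h : χ.conductor = 1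
    · have hχ : χ = 1 := DirichletCharacter.eq_one_iff_conductor_eq_one.2 h
      rw [if_pos hχ]
      generalize χ.primitiveCharacter = ψ
      clear this
      revert ψ
      rw [h]
      exact fun ψ => pk_zeta ha ψ
    · have hχ : χ ≠ 1 := fun h0 => h (DirichletCharacter.eq_one_iff_conductor_eq_one.1 h0)
      rw [if_neg hχ]
      exact pk_prim ha χ.primitiveCharacter (by omega) χ.primitiveCharacter_isPrimitive
  have h2 : mD q χ = mD χ.conductor χ.primitiveCharacter := by
    funext s
    unfold mD
    split_ifs with hs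
    · have hs1 : s ≠ 1 := by
        rintro rfl
        simp at hs
      exact H385.LF_mult_eq q hq χ hs1 hs.1
    · rfl
  rw [h2]
  refine h1.change ha hq ⟨1, bD_bd q χ⟩ fun n => ?_
  rcases Nat.eq_zero_or_pos n with rfl | hn
  · have : ‖bD q χ 0 - bD χ.conductor χ.primitiveCharacter 0‖ = 0 := by
      unfold bD
      simp
    rw [this]
    split_ifs
    · exact le_rfl
    · simp
  split_ifs with hco
  · have h3 : χ (n : ZMod q) = χ.primitiveCharacter (n : ZMod χ.conductor) := by
      have h4 : DirichletCharacter.changeLevel χ.conductor_dvd_level χ.primitiveCharacter = χ :=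
        DirichletCharacter.changeLevel_primitiveCharacter χ
      have hu : IsCoprime (n : ℤ) (q : ℤ) := Nat.isCoprime_iff_coprime.2 hco
      have h5 := DirichletCharacter.changeLevel_eq_cast_of_dvd' χ.primitiveCharacter χ.conductor_dvd_level hu
      rw [h4] at h5
      simpa using h5
    unfold bD
    rw [h3, sub_self, norm_zero]
  · have h3 : χ (n : ZMod q) = 0 := χ.map_nonunit (fun hu => hco ((ZMod.isUnit_iff_coprime n q).1 hu))
    unfold bD
    rw [h3, zero_mul, mul_zero, zero_sub, norm_neg, norm_mul, norm_mul, Complex.norm_real,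
      Real.norm_of_nonneg ArithmeticFunction.vonMangoldt_nonneg, pw_half hn]
    refine mul_le_mul_of_nonneg_left ?_ ArithmeticFunction.vonMangoldt_nonneg
    calc _ ≤ 1 * Real.exp (-(Real.log n / 2)) :=
          mul_le_mul_of_nonneg_right (DirichletCharacter.norm_le_one _ _) (Real.exp_pos _).le
      _ = _ := one_mul _

end Pool.Agent.E8helper14.LI
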