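import Mathlib

/-! # Gaussian facts -/

set_option autoImplicit false

namespace Pool.Agent.E8helper14.LI

open Filter Topology MeasureTheory Set Complex

/-- the test function -/
noncomputable def hG (a v : ℝ) (w : ℂ) : ℂ := cexp ((a / 2 : ℝ) * w ^ 2 + v * w)

/-- the normalising constant -/
noncomputable def KG (a : ℝ) : ℝ := (Real.sqrt (2 * Real.pi * a))⁻¹

/-- the Gaussian weight -/
noncomputable def gs (a t : ℝ) : ℝ := Real.exp (-t ^ 2 / (2 * a))

lemma KG_pos {a : ℝ} (ha : 0 < a) : 0 < KG a := by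
  unfold KG
  have := Real.pi_pos
  positivity

lemma hG_line (a v y : ℝ) : hG a v ⟨0, y⟩ = cexp (I * (v : ℂ) * y) * cexp (-((a / 2 : ℝ) : ℂ) * (y : ℂ) ^ 2) := by
  unfold hG
  have : (⟨0, y⟩ : ℂ) = y * I := by apply Complex.ext <;> simp
  rw [this, ← Complex.exp_add]
  congr 1
  rw [mul_pow, I_sq]
  push_cast
  ring

lemma gauss_ft {a : ℝ} (ha : 0 < a) (v l : ℝ) :
    ∫ y : ℝ, cexp (-((y * I) * l)) * hG a v ⟨0, y⟩ =
      ((2 * Real.pi * KG a * gs a (v - l) : ℝ) : ℂ) := by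
  have hb : (0 : ℝ) < (((a / 2 : ℝ) : ℂ)).re := by rw [ofReal_re]; positivity
  have h1 := fourierIntegral_gaussian hb ((v - l : ℝ) : ℂ)
  have e : ∀ y : ℝ, cexp (-((y * I) * l)) * hG a v ⟨0, y⟩ =
      cexp (I * ((v - l : ℝ) : ℂ) * y) * cexp (-((a / 2 : ℝ) : ℂ) * (y : ℂ) ^ 2) := by
    intro y
    rw [hG_line, ← mul_assoc, ← Complex.exp_add]
    congr 2
    push_cast
    ring
  simp_rw [e]
  rw [h1]
  have hpi := Real.pi_pos
  have e1 : ((Real.pi : ℂ) / ((a / 2 : ℝ) : ℂ)) ^ (1 / 2 : ℂ) = ((Real.sqrt (2 * Real.pi / a) : ℝ) : ℂ) := by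
    rw [Real.sqrt_eq_rpow, Complex.ofReal_cpow (by positivity)]
    push_cast
    congr 1
    field_simp
  rw [e1]
  have e2 : Real.sqrt (2 * Real.pi / a) = 2 * Real.pi * KG a := by
    unfold KG
    have h2 : 2 * Real.pi / a = (2 * Real.pi) ^ 2 / (2 * Real.pi * a) := by
      field_simp
    rw [h2, Real.sqrt_div (by positivity), Real.sqrt_sq (by positivity), div_eq_mul_inv]
  rw [e2]
  unfold gs
  push_cast
  congr 2
  field_simp
  ring

/-- Riemann–Lebesgue -/
lemma rl {a : ℝ} {φ : ℝ → ℂ} :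
    Tendsto (fun v : ℝ => ∫ y : ℝ, φ y * hG a v ⟨0, y⟩) (cocompact ℝ) (𝓝 0) := by
  have h1 := Real.tendsto_integral_exp_smul_cocompact
    (fun y : ℝ => φ y * cexp (-((a / 2 : ℝ) : ℂ) * (y : ℂ) ^ 2))
  have h2 : Tendsto (fun v : ℝ => -(v / (2 * Real.pi))) (cocompact ℝ) (cocompact ℝ) := by
    have h3 : IsClosedEmbedding (fun v : ℝ => -(v / (2 * Real.pi))) := by
      have hpi : (2 * Real.pi) ≠ 0 := by positivity
      exact ((Homeomorph.mulRight₀ (2 * Real.pi)⁻¹ (inv_ne_zero hpi)).trans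
        (Homeomorph.neg ℝ)).isClosedEmbedding
    exact h3.tendsto_cocompact
  refine (h1.comp h2).congr fun v => ?_
  simp only [Function.comp]
  refine integral_congr_ae (Eventually.of_forall fun y => ?_)
  simp only
  rw [hG_line, Circle.smul_def, Real.fourierChar_apply, smul_eq_mul]
  have : (((2 * Real.pi * -(y * -(v / (2 * Real.pi))) : ℝ) : ℂ)) * I = I * (v : ℂ) * y := by
    push_cast
    have hpi : (Real.pi : ℂ) ≠ 0 := by exact_mod_cast Real.pi_ne_zero
    field_simp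
  rw [this]
  ring

lemma gs_nonneg (a t : ℝ) : 0 ≤ gs a t := (Real.exp_pos _).le

lemma gs_le_one {a : ℝ} (ha : 0 < a) (t : ℝ) : gs a t ≤ 1 := by
  unfold gs
  rw [Real.exp_le_one_iff]
  have : 0 ≤ t ^ 2 / (2 * a) := by positivity
  rw [neg_div]
  linarith

lemma gs_cont (a : ℝ) : Continuous (gs a) := by
  unfold gs
  fun_prop

/-- `(v + l)² ≥ v² + l²` -/
lemma gs_add {a : ℝ} (ha : 0 < a) {v l : ℝ} (hv : 0 ≤ v) (hl : 0 ≤ l) :
    gs a (v + l) ≤ gs a v * gs a l := by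
  unfold gs
  rw [← Real.exp_add]
  refine Real.exp_le_exp.2 ?_
  rw [← add_div]
  refine div_le_div_of_nonneg_right ?_ (by positivity)
  nlinarith [mul_nonneg hv hl]

/-- the decay off the diagonal -/
lemma gs_decay {a : ℝ} (ha : 0 < a) (v l : ℝ) :
    gs a (v - l) * Real.exp (-(l / 2)) ≤ Real.exp (a / 32) * Real.exp (-(v / 4)) * Real.exp (-(l / 4)) := by
  unfold gs
  rw [← Real.exp_add, ← Real.exp_add, ← Real.exp_add]
  refine Real.exp_le_exp.2 ?_
  have h1 : -(v - l) ^ 2 / (2 * a) + (v - l) / 4 ≤ a / 32 := by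
    have h2 : a / 32 - (-(v - l) ^ 2 / (2 * a) + (v - l) / 4) = (v - l - a / 4) ^ 2 / (2 * a) := by
      field_simp
      ring
    have h3 : 0 ≤ (v - l - a / 4) ^ 2 / (2 * a) := by positivity
    linarith
  linarith

/-- the rapid decay, locally uniform in `v` -/
lemma gs_far {a : ℝ} (ha : 0 < a) {A v l : ℝ} (hv : v ≤ A) :
    gs a (v - l) ≤ Real.exp (2 * A + 2 * a) * Real.exp (-(2 * l)) := by
  unfold gs
  rw [← Real.exp_add]
  refine Real.exp_le_exp.2 ?_
  have h1 : -(v - l) ^ 2 / (2 * a) + 2 * (l - v) ≤ 2 * a := by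
    have h2 : 2 * a - (-(v - l) ^ 2 / (2 * a) + 2 * (l - v)) = (v - l + 2 * a) ^ 2 / (2 * a) := by
      field_simp
      ring
    have h3 : 0 ≤ (v - l + 2 * a) ^ 2 / (2 * a) := by positivity
    linarith
  linarith

lemma exp_log_two {n : ℕ} (hn : 0 < n) : Real.exp (-(2 * Real.log n)) = (n : ℝ) ^ (-(2 : ℝ)) := by
  rw [Real.rpow_def_of_pos (by exact_mod_cast hn)]
  congr 1; ring

lemma lam2 : Summable (fun n : ℕ => ArithmeticFunction.vonMangoldt n * (n : ℝ) ^ (-(2 : ℝ))) := by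
  have h := ArithmeticFunction.LSeriesSummable_vonMangoldt (s := (2 : ℂ)) (by norm_num)
  have h2 := h.norm
  refine h2.congr (fun n => ?_)
  rw [LSeries.norm_term_eq]
  split_ifs with h0
  · subst h0; simp
  · rw [Real.rpow_neg (by positivity), div_eq_mul_inv]
    congr 1
    simp [abs_of_nonneg ArithmeticFunction.vonMangoldt_nonneg]

/-- the term of a prime sum -/
lemma term_far {a : ℝ} (ha : 0 < a) {b : ℕ → ℂ} {C : ℝ} (hb : ∀ n, ‖b n‖ ≤ C * ArithmeticFunction.vonMangoldt n)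
    {A v : ℝ} (hv : v ≤ A) (n : ℕ) :
    ‖b n * (gs a (v - Real.log n) : ℂ)‖ ≤
      (C * Real.exp (2 * A + 2 * a)) * (ArithmeticFunction.vonMangoldt n * (n : ℝ) ^ (-(2 : ℝ))) := by
  have hL : 0 ≤ ArithmeticFunction.vonMangoldt n := ArithmeticFunction.vonMangoldt_nonneg
  rcases Nat.eq_zero_or_pos n with h | h
  · subst h
    have h0 := hb 0
    simp only [ArithmeticFunction.map_zero, mul_zero] at h0
    have : b 0 = 0 := norm_le_zero_iff.1 h0
    simp [this]
  · rw [norm_mul, Complex.norm_real, Real.norm_of_nonneg (gs_nonneg _ _), ← exp_log_two h]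
    have h1 := gs_far (l := Real.log n) ha hv
    calc ‖b n‖ * gs a (v - Real.log n)
        ≤ (C * ArithmeticFunction.vonMangoldt n) * (Real.exp (2 * A + 2 * a) * Real.exp (-(2 * Real.log n))) :=
          mul_le_mul (hb n) h1 (gs_nonneg _ _) ((norm_nonneg _).trans (hb n))
      _ = _ := by ring

lemma psum_summable {a : ℝ} (ha : 0 < a) {b : ℕ → ℂ} {C : ℝ}
    (hb : ∀ n, ‖b n‖ ≤ C * ArithmeticFunction.vonMangoldt n) (v : ℝ) :
    Summable (fun n : ℕ => ‖b n * (gs a (v - Real.log n) : ℂ)‖) :=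
  Summable.of_nonneg_of_le (fun _ => norm_nonneg _) (fun n => term_far ha hb (le_refl v) n) (lam2.mul_left _)

lemma psum_cont {a : ℝ} (ha : 0 < a) {b : ℕ → ℂ} {C : ℝ}
    (hb : ∀ n, ‖b n‖ ≤ C * ArithmeticFunction.vonMangoldt n) :
    Continuous (fun v : ℝ => ∑' n : ℕ, b n * (gs a (v - Real.log n) : ℂ)) := by
  rw [continuous_iff_continuousAt]
  intro v0
  have hU : {v : ℝ | v < v0 + 1} ∈ 𝓝 v0 :=
    (isOpen_lt continuous_id continuous_const).mem_nhds (by show v0 < v0 + 1; linarith)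
  have hco : ContinuousOn (fun v : ℝ => ∑' n : ℕ, b n * (gs a (v - Real.log n) : ℂ)) {v : ℝ | v < v0 + 1} := by
    refine continuousOn_tsum (fun n => ?_) (lam2.mul_left (C * Real.exp (2 * (v0 + 1) + 2 * a))) fun n v hv => ?_
    · have := gs_cont a
      fun_prop
    · exact term_far ha hb (le_of_lt hv) n
  exact hco.continuousAt hU

end Pool.Agent.E8helper14.LI
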