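import Pool.Agent.Y23.G.An5
import Pool.Agent.E8helper14.LI.Gs

/-! # The Gaussian explicit formula -/

set_option autoImplicit false
set_option linter.unusedSectionVars false

namespace Pool.Agent.E8helper14.LI

open MeasureTheory Set Filter Topology Complex
open scoped ComplexConjugate
open Pool.Agent.Y23.G

lemma hG_dec {a : ℝ} (ha : 0 < a) (v : ℝ) : Dec (hG a v) (Real.exp (2 * a + 2 * |v|)) (a / 2) := by
  refine ⟨?_, fun w hw => ?_⟩
  · unfold hG
    fun_prop
  · unfold hG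
    rw [Complex.norm_exp, ← Real.exp_add]
    refine Real.exp_le_exp.2 ?_
    have e : (((a / 2 : ℝ) : ℂ) * w ^ 2 + v * w).re = a / 2 * (w.re ^ 2 - w.im ^ 2) + v * w.re := by
      rw [Complex.add_re, Complex.re_ofReal_mul, Complex.re_ofReal_mul, sq, Complex.mul_re]
      ring
    rw [e]
    have h1 : w.re ^ 2 ≤ 4 := by
      rw [← sq_abs]
      have := abs_nonneg w.re
      nlinarith
    have h2 : v * w.re ≤ 2 * |v| := by
      calc v * w.re ≤ |v * w.re| := le_abs_self _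
        _ = |v| * |w.re| := abs_mul _ _
        _ ≤ |v| * 2 := mul_le_mul_of_nonneg_left hw (abs_nonneg _)
        _ = _ := by ring
    nlinarith

lemma hst_hG (a v : ℝ) : hst (hG a v) = hG a (-v) := by
  funext w
  unfold hst hG
  rw [← Complex.exp_conj]
  congr 1
  simp only [map_add, map_mul, map_pow, map_neg, Complex.conj_conj, Complex.conj_ofReal]
  push_cast
  ring

lemma gs_neg (a t : ℝ) : gs a (-t) = gs a t := by
  unfold gs
  rw [neg_sq]

section

variable [L : LFun]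

/-- the multiplicity -/
noncomputable def mX (s : ℂ) : ℕ := analyticOrderNatAt L.X s

lemma mX_zero {s : ℂ} (h : L.X s ≠ 0) : mX s = 0 := by
  unfold mX analyticOrderNatAt
  rw [(Xan s).analyticOrderAt_eq_zero.2 h]
  rfl

lemma mX_pos {s : ℂ} (h : L.X s = 0) : 1 ≤ mX s := X_mpos h

lemma mX_refl (s : ℂ) : mX (1 - conj s) = mX s := X_mrefl s

lemma zt_tsum (f : ℂ → ℂ) : ∑' ρ : Zt, (mu (ρ : ℂ) : ℂ) * f ρ = ∑' s : ℂ, (mX s : ℂ) * f s := by
  refine tsum_subtype_eq_of_support_subset (f := fun s : ℂ => (mX s : ℂ) * f s) (s := ZD.Zs) fun s hs => ?_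
  rw [Function.mem_support] at hs
  rw [Zs_iff]
  by_contra h0
  exact hs (by simp [mX_zero h0])

lemma zt_summable {f : ℂ → ℂ} (h : Summable (fun ρ : Zt => ‖(mu (ρ : ℂ) : ℂ) * f ρ‖)) :
    Summable (fun s : ℂ => ‖(mX s : ℂ) * f s‖) := by
  have e : (ZD.Zs : Set ℂ).indicator (fun s : ℂ => ‖(mX s : ℂ) * f s‖) = fun s : ℂ => ‖(mX s : ℂ) * f s‖ := by
    rw [Set.indicator_eq_self]
    intro s hs
    rw [Function.mem_support] at hs
    rw [Zs_iff]
    by_contra h0
    exact hs (by simp [mX_zero h0])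
  rw [← e, ← summable_subtype_iff_indicator]
  exact h

lemma m_summable {a : ℝ} (ha : 0 < a) (v : ℝ) : Summable (fun s : ℂ => ‖(mX s : ℂ) * hG a v (s - 1 / 2)‖) :=
  zt_summable (f := fun s => hG a v (s - 1 / 2))
    (dec_summable (half_pos ha) (Real.exp_pos _).le (hG_dec ha v))

/-- the archimedean density -/
noncomputable def phi (y : ℝ) : ℂ := ph1 ⟨0, y⟩ + L.r * (1 / (⟨0, y⟩ - 1 / 2))

lemma ph_int {a : ℝ} (ha : 0 < a) (v : ℝ) : Integrable (fun y : ℝ => ph1 (⟨0, y⟩ : ℂ) * hG a v ⟨0, y⟩) := by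
  obtain ⟨C, hC, hb⟩ := ph1_bd (L := L)
  have hc1 : Continuous (fun y : ℝ => ph1 (⟨0, y⟩ : ℂ)) := by
    rw [continuous_iff_continuousAt]
    intro y
    exact ContinuousAt.comp (f := fun y : ℝ => (⟨0, y⟩ : ℂ)) (x := y) (ph1_diff ⟨0, y⟩ le_rfl).continuousAt
      (line_ct 0).continuousAt
  exact dec_mul_int hc1 (fun y => hb ⟨0, y⟩ le_rfl zero_le_two) (half_pos ha) (hG_dec ha v) (by norm_num)

lemma pole_int {a : ℝ} (ha : 0 < a) (v : ℝ) :
    Integrable (fun y : ℝ => 1 / (⟨0, y⟩ - 1 / 2) * hG a v ⟨0, y⟩) :=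
  inv_int (half_pos ha) (hG_dec ha v) (by norm_num) (by norm_num)

lemma phi_int {a : ℝ} (ha : 0 < a) (v : ℝ) : Integrable (fun y : ℝ => phi y * hG a v ⟨0, y⟩) := by
  refine ((ph_int ha v).add ((pole_int ha v).const_mul (L.r : ℂ))).congr (Eventually.of_forall fun y => ?_)
  simp only [Pi.add_apply]
  unfold phi
  ring

lemma hG_norm (a v y : ℝ) : ‖hG a v ⟨0, y⟩‖ = ‖hG a 0 ⟨0, y⟩‖ := by
  unfold hG
  rw [Complex.norm_exp, Complex.norm_exp]
  congr 1
  rw [Complex.add_re, Complex.add_re, Complex.re_ofReal_mul, Complex.re_ofReal_mul, Complex.re_ofReal_mul]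
  simp

/-- the archimedean integral -/
noncomputable def I1 (a v : ℝ) : ℂ := ∫ y : ℝ, phi y * hG a v ⟨0, y⟩

lemma I1_bd {a : ℝ} (v : ℝ) : ‖I1 a v‖ ≤ ∫ y : ℝ, ‖phi y * hG a 0 ⟨0, y⟩‖ := by
  unfold I1
  refine (norm_integral_le_integral_norm _).trans (le_of_eq ?_)
  refine integral_congr_ae (Eventually.of_forall fun y => ?_)
  simp only
  rw [norm_mul, norm_mul, hG_norm]

lemma I1_tendsto {a : ℝ} : Tendsto (fun v : ℝ => I1 a v) (cocompact ℝ) (𝓝 0) := rl

lemma J_phi {a : ℝ} (ha : 0 < a) (v : ℝ) : ∫ y : ℝ, XL ⟨5 / 2, y⟩ * hG a v ⟨2, y⟩ =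
    I1 a v + L.r * (2 * Real.pi * hG a v (1 / 2)) -
      2 * Real.pi * KG a * ∑' n : ℕ, aL n * (gs a (v - Real.log n) : ℂ) := by
  rw [J_eq (half_pos ha) (Real.exp_pos _).le (hG_dec ha v)]
  have h1 : I1 a v = (∫ y : ℝ, ph1 ⟨0, y⟩ * hG a v ⟨0, y⟩) + L.r * ∫ y : ℝ, 1 / (⟨0, y⟩ - 1 / 2) * hG a v ⟨0, y⟩ := by
    unfold I1
    rw [← integral_const_mul, ← integral_add (ph_int ha v) ((pole_int ha v).const_mul _)]
    refine integral_congr_ae (Eventually.of_forall fun y => ?_)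
    simp only
    unfold phi
    ring
  have h2 : ∀ n : ℕ, aL n * JJ (hG a v) (Real.log n) =
      2 * Real.pi * KG a * (aL n * (gs a (v - Real.log n) : ℂ)) := by
    intro n
    have h3 : JJ (hG a v) (Real.log n) = ((2 * Real.pi * KG a * gs a (v - Real.log n) : ℝ) : ℂ) :=
      gauss_ft ha v (Real.log n)
    rw [h3]
    push_cast
    ring
  simp_rw [h2]
  rw [tsum_mul_left, h1]
  ring

lemma hG_half (a v : ℝ) : hG a v (1 / 2) = (Real.exp (a / 8 + v / 2) : ℂ) := by
  unfold hG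
  rw [Complex.ofReal_exp]
  congr 1
  push_cast
  ring

/-- **the Gaussian explicit formula** -/
theorem ef {a : ℝ} (ha : 0 < a) : ∃ R : ℝ → ℂ, ∃ C : ℝ, (∀ v, 0 ≤ v → ‖R v‖ ≤ C) ∧
    Tendsto R atTop (𝓝 0) ∧ ∀ v : ℝ, ∑' s : ℂ, (mX s : ℂ) * hG a v (s - 1 / 2) =
      L.r * (Real.exp (a / 8 + v / 2) : ℂ) - KG a * (∑' n : ℕ, aL n * (gs a (v - Real.log n) : ℂ)) + R v := by
  have hpi : (2 * Real.pi : ℂ) ≠ 0 := by
    have := Real.pi_pos
    exact_mod_cast (by positivity : (2 * Real.pi : ℝ) ≠ 0)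
  have haLb : ∀ n, ‖aL n‖ ≤ (L.m : ℝ) * ArithmeticFunction.vonMangoldt n := aL_norm
  set P : ℝ → ℂ := fun v => ∑' n : ℕ, aL n * (gs a (v - Real.log n) : ℂ) with hP
  set R : ℝ → ℂ := fun v => (2 * Real.pi : ℂ)⁻¹ * (I1 a v + conj (I1 a (-v))) +
    L.r * (Real.exp (a / 8 - v / 2) : ℂ) - KG a * conj (P (-v)) with hR
  set C1 : ℝ := ∫ y : ℝ, ‖phi y * hG a 0 ⟨0, y⟩‖ with hC1
  set S0 : ℝ := ∑' n : ℕ, ‖aL n * (gs a (0 - Real.log n) : ℂ)‖ with hS0
  have hPb : ∀ v : ℝ, 0 ≤ v → ‖P (-v)‖ ≤ gs a v * S0 := by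
    intro v hv
    rw [hS0, ← tsum_mul_left]
    have hs := (psum_summable ha haLb 0).mul_left (gs a v)
    refine tsum_of_norm_bounded hs.hasSum fun n => ?_
    rw [norm_mul, norm_mul, Complex.norm_real, Complex.norm_real, Real.norm_of_nonneg (gs_nonneg _ _),
      Real.norm_of_nonneg (gs_nonneg _ _), zero_sub, gs_neg,
      show -v - Real.log n = -(v + Real.log n) by ring, gs_neg]
    have h1 := gs_add ha hv (Real.log_natCast_nonneg n)
    calc ‖aL n‖ * gs a (v + Real.log n) ≤ ‖aL n‖ * (gs a v * gs a (Real.log n)) :=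
          mul_le_mul_of_nonneg_left h1 (norm_nonneg _)
      _ = _ := by ring
  have hS0n : 0 ≤ S0 := tsum_nonneg fun n => norm_nonneg _
  refine ⟨R, ‖(2 * Real.pi : ℂ)⁻¹‖ * (C1 + C1) + L.r * Real.exp (a / 8) + KG a * S0, fun v hv => ?_, ?_, fun v => ?_⟩
  · simp only [hR]
    refine (norm_sub_le _ _).trans (add_le_add ((norm_add_le _ _).trans (add_le_add ?_ ?_)) ?_)
    · rw [norm_mul]
      refine mul_le_mul_of_nonneg_left ((norm_add_le _ _).trans (add_le_add (I1_bd v) ?_)) (norm_nonneg _)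
      rw [RCLike.norm_conj]
      exact I1_bd (-v)
    · rw [norm_mul, Complex.norm_natCast, Complex.norm_real, Real.norm_of_nonneg (Real.exp_pos _).le]
      exact mul_le_mul_of_nonneg_left (Real.exp_le_exp.2 (by linarith)) (Nat.cast_nonneg _)
    · rw [norm_mul, RCLike.norm_conj, Complex.norm_real, Real.norm_of_nonneg (KG_pos ha).le]
      refine mul_le_mul_of_nonneg_left ((hPb v hv).trans ?_) (KG_pos ha).le
      calc gs a v * S0 ≤ 1 * S0 := mul_le_mul_of_nonneg_right (gs_le_one ha v) hS0n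
        _ = S0 := one_mul _
  · have t1 : Tendsto (fun v : ℝ => I1 a v) atTop (𝓝 0) := I1_tendsto.mono_left atTop_le_cocompact
    have t2 : Tendsto (fun v : ℝ => conj (I1 a (-v))) atTop (𝓝 0) := by
      have h1 : Tendsto (fun v : ℝ => I1 a (-v)) atTop (𝓝 0) :=
        (I1_tendsto.mono_left atBot_le_cocompact).comp tendsto_neg_atTop_atBot
      have h2 := (Complex.continuous_conj.tendsto 0).comp h1
      rw [map_zero] at h2
      exact h2
    have t3 : Tendsto (fun v : ℝ => ((Real.exp (a / 8 - v / 2) : ℝ) : ℂ)) atTop (𝓝 0) := by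
      have h1 : Tendsto (fun v : ℝ => Real.exp (a / 8 - v / 2)) atTop (𝓝 0) := by
        refine Real.tendsto_exp_atBot.comp ?_
        have : Tendsto (fun v : ℝ => a / 8 + -(v / 2)) atTop atBot :=
          tendsto_atBot_add_const_left _ _ (tendsto_neg_atTop_atBot.comp (tendsto_id.atTop_div_const (by norm_num)))
        refine this.congr fun v => by ring
      have h2 := (Complex.continuous_ofReal.tendsto 0).comp h1
      rw [Complex.ofReal_zero] at h2
      exact h2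
    have t4 : Tendsto (fun v : ℝ => conj (P (-v))) atTop (𝓝 0) := by
      have h1 : Tendsto (fun v : ℝ => gs a v * S0) atTop (𝓝 0) := by
        have h2 : Tendsto (fun v : ℝ => gs a v) atTop (𝓝 0) := by
          unfold gs
          refine Real.tendsto_exp_atBot.comp ?_
          have h3 : Tendsto (fun v : ℝ => v ^ 2 / (2 * a)) atTop atTop :=
            (tendsto_pow_atTop two_ne_zero).atTop_div_const (by positivity)
          refine (tendsto_neg_atTop_atBot.comp h3).congr fun v => ?_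
          simp only [Function.comp]
          ring
        have := h2.mul_const S0
        rwa [zero_mul] at this
      refine squeeze_zero_norm' ?_ h1
      filter_upwards [eventually_ge_atTop 0] with v hv
      rw [RCLike.norm_conj]
      exact hPb v hv
    have t5 := ((((t1.add t2).const_mul ((2 * Real.pi : ℂ)⁻¹)).add (t3.const_mul (L.r : ℂ))).sub
      (t4.const_mul (KG a : ℂ)))
    simpa only [add_zero, mul_zero, sub_zero] using t5
  · have hz := zeros_line (half_pos ha) (Real.exp_pos _).le (hG_dec ha v)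
    rw [hst_hG, J_phi ha, J_phi ha, zt_tsum (fun s => hG a v (s - 1 / 2))] at hz
    have h1 : ∑' s : ℂ, (mX s : ℂ) * hG a v (s - 1 / 2) = (2 * Real.pi : ℂ)⁻¹ *
        (2 * Real.pi * ∑' s : ℂ, (mX s : ℂ) * hG a v (s - 1 / 2)) := by
      rw [← mul_assoc, inv_mul_cancel₀ hpi, one_mul]
    rw [h1, hz, hG_half, hG_half]
    simp only [hR]
    have h2 : conj (I1 a (-v) + (L.r : ℂ) * (2 * Real.pi * ((Real.exp (a / 8 + -v / 2) : ℝ) : ℂ)) -
        2 * Real.pi * KG a * ∑' n : ℕ, aL n * (gs a (-v - Real.log n) : ℂ)) =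
        conj (I1 a (-v)) + (L.r : ℂ) * (2 * Real.pi * ((Real.exp (a / 8 - v / 2) : ℝ) : ℂ)) -
        2 * Real.pi * KG a * conj (P (-v)) := by
      rw [map_sub, map_add]
      simp only [map_mul, Complex.conj_ofReal, map_natCast, map_ofNat, hP]
      rw [show a / 8 + -v / 2 = a / 8 - v / 2 by ring]
    rw [h2]
    have hpi' : (Real.pi : ℂ) ≠ 0 := by exact_mod_cast Real.pi_ne_zero
    simp only [hP]
    field_simp
    ring

end

end Pool.Agent.E8helper14.LI
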