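import Pool.Agent.E8helper14.LI.Mean3

/-! # Existence of the mean and the quantitative lower bound -/

set_option autoImplicit false

namespace Pool.Agent.E8helper14.LI

open Filter Topology MeasureTheory

variable {ι : Type*}

/-- the mean belonging to a finite set -/
noncomputable def MJ (c γ : ι → ℝ) (J : Finset ι) : ℝ := Mf (fun k : J => c k) (fun k : J => γ k)

lemma MJ_tendsto {c γ : ι → ℝ} (hc : ∀ i, 0 ≤ c i) (J : Finset ι) :
    Tendsto (mn (fun v => Real.exp (∑ k : J, 2 * c k * Real.cos (γ k * v)))) atTop (𝓝 (MJ c γ J)) :=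
  mean_fin (fun k : J => c k) (fun k : J => γ k) (fun k => hc k)

lemma MJ_le {c γ : ι → ℝ} (hc : ∀ i, 0 ≤ c i) (hs : Summable c) (J : Finset ι) :
    0 ≤ MJ c γ J ∧ MJ c γ J ≤ Real.exp (2 * ∑' i, c i) := by
  have h := MJ_tendsto (γ := γ) hc J
  have hcont : Continuous (fun v => Real.exp (∑ k : J, 2 * c k * Real.cos (γ k * v))) := by fun_prop
  constructor
  · refine ge_of_tendsto h ?_
    filter_upwards [eventually_gt_atTop 0] with V hV
    unfold mn
    exact mul_nonneg (inv_nonneg.2 hV.le) (intervalIntegral.integral_nonneg hV.le fun v _ => (Real.exp_pos _).le)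
  · refine le_of_tendsto h ?_
    filter_upwards [eventually_gt_atTop 0] with V hV
    have h1 : mn (fun v => Real.exp (∑ k : J, 2 * c k * Real.cos (γ k * v))) V ≤
        mn (fun _ => Real.exp (2 * ∑' i, c i)) V := by
      refine mn_mono hcont continuous_const hV fun v => Real.exp_le_exp.2 ?_
      rw [Finset.sum_coe_sort J (fun i => 2 * c i * Real.cos (γ i * v)), ← tsum_mul_left]
      refine le_trans (Finset.sum_le_sum fun i _ => ?_) ((hs.mul_left 2).sum_le_tsum J fun i _ => by
        have := hc i; positivity)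
      calc 2 * c i * Real.cos (γ i * v) ≤ 2 * c i * 1 :=
            mul_le_mul_of_nonneg_left (Real.cos_le_one _) (by have := hc i; positivity)
        _ = _ := mul_one _
    refine h1.trans (le_of_eq ?_)
    unfold mn
    rw [intervalIntegral.integral_const, smul_eq_mul, sub_zero, ← mul_assoc, inv_mul_cancel₀ hV.ne', one_mul]

theorem mean_exists {c γ : ι → ℝ} (hc : ∀ i, 0 ≤ c i) (hs : Summable c) :
    ∃ L : ℝ, Tendsto (mn (Fz c γ)) atTop (𝓝 L) := by
  refine cauchySeq_tendsto_of_complete ?_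
  rw [Metric.cauchySeq_iff]
  intro ε hε
  set K : ℝ := Real.exp (2 * ∑' i, c i) with hK
  have hKp : 0 < K := Real.exp_pos _
  have ht := tl_tendsto hs
  have h1 : Tendsto (fun J : Finset ι => (Real.exp (tl c J) - Real.exp (-tl c J)) * K + (Real.exp (tl c J) + Real.exp (-tl c J)) * (ε / 8))
      atTop (𝓝 (ε / 4)) := by
    have h2 := (ht.rexp).sub ((ht.neg).rexp)
    have h3 := (ht.rexp).add ((ht.neg).rexp)
    have := (h2.mul_const K).add (h3.mul_const (ε / 8))
    simp only [neg_zero, Real.exp_zero, sub_self, zero_mul, zero_add] at this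
    convert this using 2
    ring
  obtain ⟨J, hJ⟩ := (h1.eventually_lt_const (show ε / 4 < ε by linarith)).exists
  have h2 := (Metric.tendsto_atTop.1 (MJ_tendsto (γ := γ) hc J)) (ε / 8) (by positivity)
  obtain ⟨V0, hV0⟩ := h2
  obtain ⟨hM0, hMK⟩ := MJ_le (γ := γ) hc hs J
  have hbd : ∀ V, max V0 1 ≤ V → Real.exp (-tl c J) * (MJ c γ J - ε / 8) ≤ mn (Fz c γ) V ∧
      mn (Fz c γ) V ≤ Real.exp (tl c J) * (MJ c γ J + ε / 8) := by
    intro V hV
    have hVp : 0 < V := lt_of_lt_of_le one_pos ((le_max_right _ _).trans hV)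
    obtain ⟨h3, h4⟩ := mn_sandwich (γ := γ) hc hs J hVp
    have h5 := hV0 V ((le_max_left _ _).trans hV)
    rw [Real.dist_eq, abs_lt] at h5
    constructor
    · refine le_trans (mul_le_mul_of_nonneg_left ?_ (Real.exp_pos _).le) h3
      linarith [h5.1]
    · refine le_trans h4 (mul_le_mul_of_nonneg_left ?_ (Real.exp_pos _).le)
      linarith [h5.2]
  refine ⟨max V0 1, fun V hV W hW => ?_⟩
  obtain ⟨a1, a2⟩ := hbd V hV
  obtain ⟨b1, b2⟩ := hbd W hW
  have hkey : Real.exp (tl c J) * (MJ c γ J + ε / 8) - Real.exp (-tl c J) * (MJ c γ J - ε / 8) < ε := by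
    have htn : 0 ≤ tl c J := by
      unfold tl
      have := hs.sum_le_tsum J (fun i _ => hc i)
      linarith
    have h6 : Real.exp (-tl c J) ≤ Real.exp (tl c J) := Real.exp_le_exp.2 (by linarith)
    have h7 : (Real.exp (tl c J) - Real.exp (-tl c J)) * MJ c γ J ≤ (Real.exp (tl c J) - Real.exp (-tl c J)) * K :=
      mul_le_mul_of_nonneg_left hMK (by linarith)
    calc _ = (Real.exp (tl c J) - Real.exp (-tl c J)) * MJ c γ J + (Real.exp (tl c J) + Real.exp (-tl c J)) * (ε / 8) := by ring
      _ ≤ (Real.exp (tl c J) - Real.exp (-tl c J)) * K + (Real.exp (tl c J) + Real.exp (-tl c J)) * (ε / 8) := by linarith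
      _ < ε := hJ
  rw [Real.dist_eq, abs_lt]
  constructor <;> linarith

lemma lim_ge_MJ {c γ : ι → ℝ} (hc : ∀ i, 0 ≤ c i) (hs : Summable c) {L : ℝ}
    (hL : Tendsto (mn (Fz c γ)) atTop (𝓝 L)) (J : Finset ι) : Real.exp (-tl c J) * MJ c γ J ≤ L := by
  refine le_of_tendsto_of_tendsto ((MJ_tendsto (γ := γ) hc J).const_mul _) hL ?_
  filter_upwards [eventually_gt_atTop 0] with V hV
  exact (mn_sandwich (γ := γ) hc hs J hV).1

theorem lim_ge {c γ : ι → ℝ} (hc : ∀ i, 0 ≤ c i) (hs : Summable c) {L : ℝ}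
    (hL : Tendsto (mn (Fz c γ)) atTop (𝓝 L)) : ∏' i, I0 (c i) ≤ L := by
  have h1 : Tendsto (fun J : Finset ι => Real.exp (-tl c J) * ∏ k : J, I0 (c k)) atTop (𝓝 (∏' i, I0 (c i))) := by
    have := (((tl_tendsto hs).neg).rexp).mul (prod_tendsto hc hs)
    simpa using this
  refine le_of_tendsto h1 (Eventually.of_forall fun J => ?_)
  refine le_trans (mul_le_mul_of_nonneg_left ?_ (Real.exp_pos _).le) (lim_ge_MJ hc hs hL J)
  exact Mf_ge_prod fun k => hc k

/-- **the gap forced by a relation** -/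
theorem lim_gap {c γ : ι → ℝ} (hc : ∀ i, 0 ≤ c i) (hs : Summable c) {L : ℝ}
    (hL : Tendsto (mn (Fz c γ)) atTop (𝓝 L)) (n : ι →₀ ℤ) (hn : n ≠ 0)
    (hrel : n.sum (fun i k => (k : ℝ) * γ i) = 0) :
    ∏' i, I0 (c i) + 2 * n.prod (fun i k => c i ^ k.natAbs / (k.natAbs.factorial : ℝ)) ≤ L := by
  classical
  set P : ℝ := n.prod (fun i k => c i ^ k.natAbs / (k.natAbs.factorial : ℝ)) with hP
  have h1 : Tendsto (fun J : Finset ι => Real.exp (-tl c J) * ((∏ k : J, I0 (c k)) + 2 * P)) atTop
      (𝓝 (∏' i, I0 (c i) + 2 * P)) := by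
    have := (((tl_tendsto hs).neg).rexp).mul ((prod_tendsto hc hs).add_const (2 * P))
    simpa using this
  refine le_of_tendsto h1 ?_
  filter_upwards [eventually_ge_atTop n.support] with J hJ
  refine le_trans (mul_le_mul_of_nonneg_left ?_ (Real.exp_pos _).le) (lim_ge_MJ hc hs hL J)
  set X : J → ℕ := fun k => (n k).toNat with hX
  set Y : J → ℕ := fun k => (-n k).toNat with hY
  have hXY : X ≠ Y := by
    intro he
    refine hn (Finsupp.ext fun i => ?_)
    by_cases hi : i ∈ n.support
    · have := congrFun he ⟨i, hJ hi⟩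
      simp only [hX, hY] at this
      rw [Finsupp.coe_zero, Pi.zero_apply]
      omega
    · simpa using hi
  have hfr : fr (fun k : J => γ k) X = fr (fun k : J => γ k) Y := by
    rw [← sub_eq_zero]
    unfold fr
    rw [← Finset.sum_sub_distrib]
    have h2 : ∀ k : J, (X k : ℝ) * γ k - (Y k : ℝ) * γ k = (n k : ℝ) * γ k := by
      intro k
      have h3 : ((X k : ℤ) : ℝ) - ((Y k : ℤ) : ℝ) = (n k : ℝ) := by
        rw [← Int.cast_sub]
        congr 1
        simp only [hX, hY]
        omega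
      push_cast at h3
      rw [← h3]
      ring
    simp_rw [h2]
    rw [Finset.sum_coe_sort J (fun i => (n i : ℝ) * γ i), ← hrel, Finsupp.sum]
    symm
    refine Finset.sum_subset hJ fun i _ hi => ?_
    rw [Finsupp.notMem_support_iff.1 hi]
    simp
  have h3 := Mf_ge (c := fun k : J => c k) (γ := fun k : J => γ k) (fun k => hc k) hXY hfr
  have h4 : gw (fun k : J => c k) X * gw (fun k : J => c k) Y = P := by
    unfold gw
    rw [← Finset.prod_mul_distrib, hP, Finsupp.prod]
    have h5 : ∀ k : J, c k ^ X k / ((X k).factorial : ℝ) * (c k ^ Y k / ((Y k).factorial : ℝ)) =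
        c k ^ (n k).natAbs / ((n k).natAbs.factorial : ℝ) := by
      intro k
      rcases le_total 0 (n k) with h | h
      · have e1 : X k = (n k).natAbs := by simp only [hX]; omega
        have e2 : Y k = 0 := by simp only [hY]; omega
        rw [e1, e2]; simp
      · have e1 : X k = 0 := by simp only [hX]; omega
        have e2 : Y k = (n k).natAbs := by simp only [hY]; omega
        rw [e1, e2]; simp
    simp_rw [h5]
    rw [Finset.prod_coe_sort J (fun i => c i ^ (n i).natAbs / ((n i).natAbs.factorial : ℝ))]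
    symm
    refine Finset.prod_subset hJ fun i _ hi => ?_
    rw [Finsupp.notMem_support_iff.1 hi]
    simp
  rw [h4] at h3
  exact h3

end Pool.Agent.E8helper14.LI
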