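import Pool.Agent.E8helper14.LI.Tot
import Pool.Agent.E8helper14.LI.Mean4

/-! # The criterion -/

set_option autoImplicit false
set_option linter.unusedSectionVars false

namespace Pool.Agent.E8helper14.LI

open MeasureTheory Set Filter Topology Complex
open scoped ComplexConjugate

variable {a : ℝ} {q : ℕ} [NeZero q]

lemma LF_an (χ : DirichletCharacter ℂ q) {s : ℂ} (hs : s ≠ 1) :
    AnalyticAt ℂ (DirichletCharacter.LFunction χ) s := by
  have h2 : DifferentiableOn ℂ (DirichletCharacter.LFunction χ) {1}ᶜ := fun z hz =>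
    (DirichletCharacter.differentiableAt_LFunction χ z (Or.inl hz)).differentiableWithinAt
  exact h2.analyticAt (isOpen_compl_singleton.mem_nhds hs)

lemma LF_top (χ : DirichletCharacter ℂ q) {s : ℂ} (hs : s ≠ 1) :
    analyticOrderAt (DirichletCharacter.LFunction χ) s ≠ ⊤ := by
  intro h
  rw [analyticOrderAt_eq_top] at h
  have hpc : IsPreconnected ({1}ᶜ : Set ℂ) :=
    (isConnected_compl_singleton_of_one_lt_rank (by rw [rank_real_complex]; exact Nat.one_lt_ofNat) _).isPreconnected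
  have hA : AnalyticOnNhd ℂ (DirichletCharacter.LFunction χ) {1}ᶜ := fun z hz => LF_an χ hz
  have h1 := hA.eqOn_zero_of_preconnected_of_eventuallyEq_zero hpc hs h
  have h2 : (2 : ℂ) ∈ ({1}ᶜ : Set ℂ) := by simp
  exact DirichletCharacter.LFunction_ne_zero_of_one_le_re χ (Or.inr (by norm_num)) (by norm_num) (h1 h2)

lemma ord_ne_zero_iff (χ : DirichletCharacter ℂ q) {s : ℂ} (hs : s ≠ 1) :
    analyticOrderNatAt (DirichletCharacter.LFunction χ) s ≠ 0 ↔ DirichletCharacter.LFunction χ s = 0 := by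
  unfold analyticOrderNatAt
  rw [Ne, ENat.toNat_eq_zero]
  constructor
  · intro h
    by_contra h0
    exact h (Or.inl ((LF_an χ hs).analyticOrderAt_eq_zero.2 h0))
  · intro h h0
    rcases h0 with h0 | h0
    · exact (LF_an χ hs).analyticOrderAt_eq_zero.1 h0 h
    · exact LF_top χ hs h0

lemma ne_one_of_re {s : ℂ} (h : s.re < 1) : s ≠ 1 := by
  rintro rfl
  simp at h

lemma mD_ne {χ : DirichletCharacter ℂ q} {s : ℂ} :
    mD q χ s ≠ 0 ↔ (0 < s.re ∧ s.re < 1) ∧ DirichletCharacter.LFunction χ s = 0 := by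
  unfold mD
  split_ifs with h
  · rw [LF_eq', ord_ne_zero_iff χ (ne_one_of_re h.2)]
    tauto
  · tauto

/-- the Riemann hypothesis modulo `q` -/
def GR (q : ℕ) [NeZero q] : Prop := ∀ (χ : DirichletCharacter ℂ q) (s : ℂ), 0 < s.re → s.re < 1 →
  DirichletCharacter.LFunction χ s = 0 → s.re = 1 / 2

lemma GR_iff : (∀ s, MT q s ≠ 0 → s.re = 1 / 2) ↔ GR q := by
  constructor
  · intro h χ s h1 h2 h3
    refine h s ?_
    have h4 : mD q χ s ≠ 0 := mD_ne.2 ⟨⟨h1, h2⟩, h3⟩
    intro h5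
    exact h4 ((Finset.sum_eq_zero_iff.1 h5) χ (Finset.mem_univ _))
  · intro h s hs
    obtain ⟨χ, _, hχ⟩ := Finset.exists_ne_zero_of_sum_ne_zero hs
    obtain ⟨⟨h1, h2⟩, h3⟩ := mD_ne.1 hχ
    exact h χ s h1 h2 h3

lemma mD_conj (χ : DirichletCharacter ℂ q) (s : ℂ) : mD q χ⁻¹ (conj s) = mD q χ s := by
  unfold mD
  rw [Complex.conj_re]
  split_ifs with h
  · rw [LF_eq', LF_eq']
    have hs : s ≠ 1 := ne_one_of_re h.2
    have hcs : conj s ≠ 1 := ne_one_of_re (by rw [Complex.conj_re]; exact h.2)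
    unfold analyticOrderNatAt
    congr 1
    rw [← order_conj (f := DirichletCharacter.LFunction χ⁻¹) (s := s) (LF_an χ⁻¹ hcs)]
    refine analyticOrderAt_congr ?_
    filter_upwards [isOpen_compl_singleton.mem_nhds hs] with z hz
    rw [H370.DL.LFunction_conj χ z hz, Complex.conj_conj]
  · rfl

lemma MT_conj (s : ℂ) : MT q (conj s) = MT q s := by
  unfold MT
  rw [← Equiv.sum_comp (Equiv.inv (DirichletCharacter ℂ q)) (fun χ => mD q χ (conj s))]
  exact Finset.sum_congr rfl fun χ _ => mD_conj χ s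

/-- the real part of the test function on the line -/
noncomputable def fv (a v : ℝ) (s : ℂ) : ℝ := Real.exp (-(a / 2) * s.im ^ 2) * Real.cos (s.im * v)

lemma hG_re {s : ℂ} (hs : s.re = 1 / 2) (v : ℝ) : (hG a v (s - 1 / 2)).re = fv a v s := by
  have e : s - 1 / 2 = ⟨0, s.im⟩ := by
    apply Complex.ext
    · simp [hs]
    · simp
  rw [e]
  unfold hG fv
  rw [Complex.exp_re]
  have e1 : (((a / 2 : ℝ) : ℂ) * (⟨0, s.im⟩ : ℂ) ^ 2 + (v : ℂ) * (⟨0, s.im⟩ : ℂ)).re = -(a / 2) * s.im ^ 2 := by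
    rw [Complex.add_re, Complex.re_ofReal_mul, Complex.re_ofReal_mul, sq, Complex.mul_re]
    ring
  have e2 : (((a / 2 : ℝ) : ℂ) * (⟨0, s.im⟩ : ℂ) ^ 2 + (v : ℂ) * (⟨0, s.im⟩ : ℂ)).im = s.im * v := by
    rw [Complex.add_im, Complex.im_ofReal_mul, Complex.im_ofReal_mul, sq, Complex.mul_im]
    ring
  rw [e1, e2]

lemma hG_norm_ge {s : ℂ} (ha : 0 < a) : Real.exp (-(a / 2) * s.im ^ 2) ≤ ‖hG a 0 (s - 1 / 2)‖ := by
  unfold hG
  rw [Complex.norm_exp]
  refine Real.exp_le_exp.2 ?_
  rw [Complex.add_re, Complex.re_ofReal_mul, Complex.re_ofReal_mul, zero_mul, add_zero, sq (s - 1 / 2), Complex.mul_re]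
  have : (s - 1 / 2).im = s.im := by simp
  rw [this]
  nlinarith [sq_nonneg (s - 1 / 2).re, mul_nonneg ha.le (sq_nonneg (s - 1 / 2).re)]

open Classical in
/-- the zeros above the real axis, with multiplicity, of the function belonging to `χ` -/
noncomputable def mU (q : ℕ) (χ : DirichletCharacter ℂ q) (s : ℂ) : ℕ := if 0 < s.im then mD q χ s else 0

/-- the index set of `Γ_q` -/
abbrev Zr (q : ℕ) [NeZero q] : Type := {x : DirichletCharacter ℂ q × ℂ × ℕ // x.2.2 < mU q x.1 x.2.1}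

open Classical in
lemma mU_sum (s : ℂ) : ∑ χ : DirichletCharacter ℂ q, mU q χ s = if 0 < s.im then MT q s else 0 := by
  unfold mU MT
  split_ifs <;> simp

lemma MTf_summable (ha : 0 < a) (v : ℝ) : Summable (fun s : ℂ => (MT q s : ℝ) * fv a v s) := by
  have h := (pk_tot (q := q) ha).sum 0
  refine Summable.of_norm_bounded h fun s => ?_
  unfold fv
  rw [norm_mul, norm_mul, norm_mul, Real.norm_natCast, Complex.norm_natCast, Real.norm_of_nonneg (Real.exp_pos _).le,
    Real.norm_eq_abs]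
  refine mul_le_mul_of_nonneg_left ?_ (Nat.cast_nonneg _)
  calc Real.exp (-(a / 2) * s.im ^ 2) * |Real.cos (s.im * v)| ≤ Real.exp (-(a / 2) * s.im ^ 2) * 1 :=
        mul_le_mul_of_nonneg_left (Real.abs_cos_le_one _) (Real.exp_pos _).le
    _ = Real.exp (-(a / 2) * s.im ^ 2) := mul_one _
    _ ≤ _ := hG_norm_ge ha

/-- the index set of `Γ_q`, explicitly -/
abbrev Gam (q : ℕ) [NeZero q] : Type := {x : DirichletCharacter ℂ q × ℂ × ℕ //
  0 < x.2.1.re ∧ x.2.1.re < 1 ∧ 0 < x.2.1.im ∧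
    x.2.2 < analyticOrderNatAt (DirichletCharacter.LFunction x.1) x.2.1}

/-- the two forms of the index set -/
def gamE : Gam q ≃ Zr q := Equiv.subtypeEquivRight (fun x => by
  unfold mU mD
  rw [LF_eq']
  split_ifs with h1 h2
  · tauto
  · simp only [not_lt_zero]
    tauto
  · simp only [not_lt_zero]
    tauto)

/-- the coefficients -/
noncomputable def cc (a : ℝ) (x : Gam q) : ℝ := Real.exp (-(a / 2) * x.1.2.1.im ^ 2)

/-- the frequencies -/
def gm (x : Gam q) : ℝ := x.1.2.1.im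

lemma U_summable (ha : 0 < a) (g : ℂ → ℝ) (hg : ∀ s, |g s| ≤ Real.exp (-(a / 2) * s.im ^ 2)) :
    Summable (fun s => ((∑ χ : DirichletCharacter ℂ q, mU q χ s : ℕ) : ℝ) * |g s|) := by
  classical
  have h := (pk_tot (q := q) ha).sum 0
  refine Summable.of_nonneg_of_le (fun s => by positivity) (fun s => ?_) h
  rw [norm_mul, Complex.norm_natCast, mU_sum]
  refine mul_le_mul ?_ ((hg s).trans (hG_norm_ge ha)) (abs_nonneg _) (Nat.cast_nonneg _)
  split_ifs
  · exact le_rfl
  · simp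

lemma cc_summable (ha : 0 < a) : Summable (cc (q := q) a) := by
  have h := (zer_sum (mU q) (fun s => Real.exp (-(a / 2) * s.im ^ 2))
    (U_summable ha _ fun s => by rw [abs_of_pos (Real.exp_pos _)])).1
  have h1 : Summable (fun x : Zr q => Real.exp (-(a / 2) * x.1.2.1.im ^ 2)) := by
    refine h.congr fun x => ?_
    rw [abs_of_pos (Real.exp_pos _)]
  exact (gamE (q := q)).summable_iff.2 h1

lemma fv_sum (ha : 0 < a) (v : ℝ) : ∑' x : Gam q, 2 * cc a x * Real.cos (gm x * v) =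
    2 * ∑' s, ((∑ χ : DirichletCharacter ℂ q, mU q χ s : ℕ) : ℝ) * fv a v s := by
  have h := (zer_sum (mU q) (fv a v) (U_summable ha _ fun s => by
    unfold fv
    rw [abs_mul, abs_of_pos (Real.exp_pos _)]
    calc _ ≤ Real.exp (-(a / 2) * s.im ^ 2) * 1 :=
          mul_le_mul_of_nonneg_left (Real.abs_cos_le_one _) (Real.exp_pos _).le
      _ = _ := mul_one _)).2
  rw [← h, ← (gamE (q := q)).tsum_eq, ← tsum_mul_left]
  refine tsum_congr fun x => ?_
  unfold cc gm
  show _ = 2 * (Real.exp (-(a / 2) * x.1.2.1.im ^ 2) * Real.cos (x.1.2.1.im * v))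
  ring

/-- **the almost periodic expansion** -/
theorem EE_exp (ha : 0 < a) (hGR : ∀ s, MT q s ≠ 0 → s.re = 1 / 2) :
    Tendsto (fun v => EE q a v - ((MT q (1 / 2) : ℝ) + ∑' x : Gam q, 2 * cc a x * Real.cos (gm x * v))) atTop (𝓝 0) := by
  classical
  obtain ⟨R, B, hR1, hR2, hR3⟩ := tot_ef (q := q) ha
  have hkey : ∀ v, EE q a v - ((MT q (1 / 2) : ℝ) + ∑' x : Gam q, 2 * cc a x * Real.cos (gm x * v)) = -(R v).re := by
    intro v
    have h1 := congrArg Complex.re (hR3 v)
    rw [Complex.add_re, Complex.ofReal_re, Complex.re_tsum ((pk_tot (q := q) ha).sum v).of_norm] at h1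
    have h2 : ∑' s : ℂ, ((MT q s : ℂ) * hG a v (s - 1 / 2)).re = ∑' s : ℂ, (MT q s : ℝ) * fv a v s := by
      refine tsum_congr fun s => ?_
      by_cases hs : MT q s = 0
      · simp [hs]
      · rw [← hG_re (hGR s hs) v]
        have : ((MT q s : ℕ) : ℂ) = ((MT q s : ℝ) : ℂ) := by push_cast; rfl
        rw [this, Complex.re_ofReal_mul]
    rw [h2, sign_split (M := fun s => (MT q s : ℝ)) (g := fv a v)] at h1
    · have h3 : fv a v (1 / 2) = 1 := by
        unfold fv
        simp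
      have h4 : ∀ s : ℂ, (if 0 < s.im then (MT q s : ℝ) else 0) = ((∑ χ : DirichletCharacter ℂ q, mU q χ s : ℕ) : ℝ) := by
        intro s
        rw [mU_sum]
        split_ifs <;> simp
      rw [h3, mul_one] at h1
      simp_rw [h4] at h1
      rw [← fv_sum ha v] at h1
      linarith
    · intro s
      simp only [MT_conj]
    · intro s
      unfold fv
      rw [Complex.conj_im, neg_sq, neg_mul s.im v, Real.cos_neg]
    · intro s hs him
      have h5 := hGR s (by exact_mod_cast hs)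
      apply Complex.ext
      · simpa using h5
      · simpa using him
    · exact MTf_summable ha v
  simp_rw [hkey]
  have h1 := ((Complex.continuous_re.tendsto 0).comp hR2).neg
  simpa using h1

/-- the constant -/
noncomputable def RR (q : ℕ) [NeZero q] (a : ℝ) : ℝ :=
  Real.exp (MT q (1 / 2) : ℝ) * ∏' x : Gam q, I0 (cc a x)

lemma cc_pos (x : Gam q) : 0 < cc a x := Real.exp_pos _

lemma mn_add {F G : ℝ → ℝ} (hF : Continuous F) (hG : Continuous G) (V : ℝ) :
    mn (fun v => F v + G v) V = mn F V + mn G V := by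
  unfold mn
  rw [intervalIntegral.integral_add (hF.intervalIntegrable _ _) (hG.intervalIntegrable _ _)]
  ring

lemma mean_diff (ha : 0 < a) (hGR : ∀ s, MT q s ≠ 0 → s.re = 1 / 2) :
    Tendsto (fun V => mn (fun v => Real.exp (EE q a v)) V -
      Real.exp (MT q (1 / 2) : ℝ) * mn (Fz (cc (q := q) a) gm) V) atTop (𝓝 0) := by
  have hE := EE_cont (q := q) ha
  have hF := Fz_cont (γ := gm (q := q)) (fun x => (cc_pos (a := a) x).le) (cc_summable ha)
  set D : ℝ → ℝ := fun v => Real.exp (EE q a v) - Real.exp (MT q (1 / 2) : ℝ) * Fz (cc (q := q) a) gm v with hD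
  have hDc : Continuous D := (Real.continuous_exp.comp hE).sub (continuous_const.mul hF)
  have hD0 : Tendsto D atTop (𝓝 0) := by
    have h1 := EE_exp ha hGR
    have h2 : Tendsto (fun v => Real.exp (EE q a v - ((MT q (1 / 2) : ℝ) + ∑' x : Gam q, 2 * cc a x * Real.cos (gm x * v))) - 1)
        atTop (𝓝 0) := by
      have := (h1.rexp).sub_const 1
      simpa using this
    have h3 : ∀ v, D v = (Real.exp (MT q (1 / 2) : ℝ) * Fz (cc (q := q) a) gm v) *
        (Real.exp (EE q a v - ((MT q (1 / 2) : ℝ) + ∑' x : Gam q, 2 * cc a x * Real.cos (gm x * v))) - 1) := by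
      intro v
      simp only [hD]
      unfold Fz
      rw [mul_sub, mul_one, ← Real.exp_add, ← Real.exp_add]
      congr 2
      ring
    set K : ℝ := Real.exp (MT q (1 / 2) : ℝ) * Real.exp (∑' x : Gam q, 2 * cc a x) with hK
    have h4 : Tendsto (fun v => K * |Real.exp (EE q a v - ((MT q (1 / 2) : ℝ) + ∑' x : Gam q, 2 * cc a x * Real.cos (gm x * v))) - 1|)
        atTop (𝓝 0) := by
      have := (h2.abs).const_mul K
      simpa using this
    refine squeeze_zero_norm (fun v => ?_) h4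
    rw [h3, norm_mul, Real.norm_eq_abs, Real.norm_eq_abs]
    refine mul_le_mul_of_nonneg_right ?_ (abs_nonneg _)
    have h7 : 0 ≤ Fz (cc (q := q) a) gm v := (Real.exp_pos _).le
    rw [abs_of_nonneg (mul_nonneg (Real.exp_pos _).le h7)]
    refine mul_le_mul_of_nonneg_left ?_ (Real.exp_pos _).le
    unfold Fz
    refine Real.exp_le_exp.2 ?_
    refine Summable.tsum_le_tsum (fun x => ?_) (term_summable (fun x => (cc_pos x).le) (cc_summable ha) v)
      ((cc_summable ha).mul_left 2)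
    calc 2 * cc a x * Real.cos (gm x * v) ≤ 2 * cc a x * 1 :=
          mul_le_mul_of_nonneg_left (Real.cos_le_one _) (by have := cc_pos (a := a) x; positivity)
      _ = _ := mul_one _
  have h5 := mn_zero hDc hD0
  refine h5.congr fun V => ?_
  have h6 : mn (fun v => Real.exp (EE q a v)) V = mn (fun v => D v + Real.exp (MT q (1 / 2) : ℝ) * Fz (cc (q := q) a) gm v) V := by
    congr 1
    funext v
    simp only [hD]
    ring
  have h8 : Continuous (fun v => Real.exp (MT q (1 / 2) : ℝ) * Fz (cc (q := q) a) gm v) := continuous_const.mul hF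
  rw [h6, mn_add hDc h8, mn_const_mul]
  ring

/-- **the criterion** -/
theorem main (ha : 0 < a) :
    (GR q ↔ ∃ C : ℝ, ∀ᶠ V in atTop, mn (fun v => Real.exp (EE q a v)) V ≤ C) ∧
    (GR q → ∃ L : ℝ, Tendsto (mn (fun v => Real.exp (EE q a v))) atTop (𝓝 L) ∧ RR q a ≤ L ∧
      (L = RR q a ↔ LinearIndependent ℚ (gm (q := q))) ∧
      ∀ n : Gam q →₀ ℤ, n ≠ 0 → n.sum (fun x k => (k : ℝ) * gm x) = 0 →
        RR q a + 2 * Real.exp (MT q (1 / 2) : ℝ) *
          n.prod (fun x k => cc a x ^ k.natAbs / (k.natAbs.factorial : ℝ)) ≤ L) ∧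
    (GR q ∧ LinearIndependent ℚ (gm (q := q)) ↔
      ∀ ε > 0, ∀ᶠ V in atTop, mn (fun v => Real.exp (EE q a v)) V ≤ RR q a + ε) := by
  have hcs := cc_summable (q := q) ha
  have hc0 : ∀ x : Gam q, 0 ≤ cc a x := fun x => (cc_pos (a := a) x).le
  set E0 : ℝ := Real.exp (MT q (1 / 2) : ℝ) with hE0
  have hE0p : 0 < E0 := Real.exp_pos _
  have hB : GR q → ∃ L : ℝ, Tendsto (mn (fun v => Real.exp (EE q a v))) atTop (𝓝 L) ∧ RR q a ≤ L ∧
      (L = RR q a ↔ LinearIndependent ℚ (gm (q := q))) ∧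
      ∀ n : Gam q →₀ ℤ, n ≠ 0 → n.sum (fun x k => (k : ℝ) * gm x) = 0 →
        RR q a + 2 * E0 * n.prod (fun x k => cc a x ^ k.natAbs / (k.natAbs.factorial : ℝ)) ≤ L := by
    intro hG
    have hGR := GR_iff.2 hG
    obtain ⟨L, hL⟩ := mean_exists (γ := gm (q := q)) hc0 hcs
    have h1 := (mean_diff ha hGR).add (hL.const_mul E0)
    rw [zero_add] at h1
    have h2 : Tendsto (mn (fun v => Real.exp (EE q a v))) atTop (𝓝 (E0 * L)) := by
      refine h1.congr fun V => ?_
      ring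
    refine ⟨E0 * L, h2, ?_, ⟨fun h => ?_, fun h => ?_⟩, fun n hn hrel => ?_⟩
    · unfold RR
      exact mul_le_mul_of_nonneg_left (lim_ge hc0 hcs hL) hE0p.le
    · by_contra hLI
      obtain ⟨δ, hδ, hev⟩ := mean_notLI (fun x => cc_pos (a := a) x) hcs hLI
      have h3 := ge_of_tendsto hL hev
      have h4 : L = ∏' x : Gam q, I0 (cc a x) := by
        unfold RR at h
        rw [← hE0] at h
        exact mul_left_cancel₀ hE0p.ne' h
      linarith
    · have h3 := mean_LI hc0 hcs h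
      unfold RR
      rw [← hE0, tendsto_nhds_unique hL h3]
    · have h3 := lim_gap hc0 hcs hL n hn hrel
      have h4 := mul_le_mul_of_nonneg_left h3 hE0p.le
      unfold RR
      rw [← hE0]
      calc _ = E0 * (∏' i, I0 (cc a i) + 2 * n.prod (fun x k => cc a x ^ k.natAbs / (k.natAbs.factorial : ℝ))) := by ring
        _ ≤ _ := h4
  refine ⟨⟨fun hG => ?_, fun h => ?_⟩, hB, ⟨fun h => ?_, fun h => ?_⟩⟩
  · obtain ⟨L, hL, _⟩ := hB hG
    refine ⟨L + 1, ?_⟩
    filter_upwards [hL.eventually_lt_const (show L < L + 1 by linarith)] with V hV using hV.le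
  · obtain ⟨C, hC⟩ := h
    obtain ⟨V0, hV0⟩ := eventually_atTop.1 hC
    exact GR_iff.1 (line_of_mean ha hV0)
  · obtain ⟨L, hL, _, h2, _⟩ := hB h.1
    have h3 := h2.2 h.2
    intro ε hε
    filter_upwards [hL.eventually_lt_const (show L < RR q a + ε by linarith)] with V hV using hV.le
  · obtain ⟨V0, hV0⟩ := eventually_atTop.1 (h 1 one_pos)
    have hG := GR_iff.1 (line_of_mean ha hV0)
    obtain ⟨L, hL, h1, h2, _⟩ := hB hG
    refine ⟨hG, h2.1 (le_antisymm ?_ h1)⟩
    refine le_of_forall_pos_le_add fun ε hε => ?_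
    exact le_of_tendsto hL (h ε hε)

end Pool.Agent.E8helper14.LI
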