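import Mathlib

/-! # Sums over zeros with multiplicity, and conjugation -/

set_option autoImplicit false

namespace Pool.Agent.E8helper14.LI

open Filter Topology MeasureTheory Set
open scoped ComplexConjugate

/-- the index set and its sigma form -/
def idxE {X : Type*} (m : X → ℂ → ℕ) :
    {y : X × ℂ × ℕ // y.2.2 < m y.1 y.2.1} ≃ (Σ s : ℂ, Σ x : X, Fin (m x s)) where
  toFun y := ⟨y.1.2.1, y.1.1, ⟨y.1.2.2, y.2⟩⟩
  invFun z := ⟨(z.2.1, z.1, z.2.2.1), z.2.2.2⟩
  left_inv _ := rfl
  right_inv _ := rfl

lemma zer_sum {X : Type*} [Fintype X] (m : X → ℂ → ℕ) (g : ℂ → ℝ)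
    (h : Summable (fun s => ((∑ x, m x s : ℕ) : ℝ) * |g s|)) :
    Summable (fun y : {y : X × ℂ × ℕ // y.2.2 < m y.1 y.2.1} => |g y.1.2.1|) ∧
    ∑' y : {y : X × ℂ × ℕ // y.2.2 < m y.1 y.2.1}, g y.1.2.1 = ∑' s, ((∑ x, m x s : ℕ) : ℝ) * g s := by
  have hin : ∀ (f : ℂ → ℝ) (s : ℂ), ∑' _z : (Σ x : X, Fin (m x s)), f s = ((∑ x, m x s : ℕ) : ℝ) * f s := by
    intro f s
    rw [tsum_fintype, Finset.sum_const, Finset.card_univ, Fintype.card_sigma, nsmul_eq_mul]
    simp
  have h1 : Summable (fun z : (Σ s : ℂ, Σ x : X, Fin (m x s)) => |g z.1|) := by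
    rw [summable_sigma_of_nonneg (fun z => abs_nonneg _)]
    refine ⟨fun s => (hasSum_fintype _).summable, ?_⟩
    refine h.congr fun s => ?_
    exact (hin (fun s => |g s|) s).symm
  have h2 : Summable (fun z : (Σ s : ℂ, Σ x : X, Fin (m x s)) => g z.1) := Summable.of_norm h1
  constructor
  · rw [← (idxE m).symm.summable_iff]
    exact h1
  · rw [← (idxE m).symm.tsum_eq]
    show ∑' z : (Σ s : ℂ, Σ x : X, Fin (m x s)), g z.1 = _
    rw [h2.tsum_sigma]
    exact tsum_congr fun s => hin g s

/-- the order of a conjugated function -/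
lemma order_conj {f : ℂ → ℂ} {s : ℂ} (h : AnalyticAt ℂ f (conj s)) :
    analyticOrderAt (fun z => conj (f (conj z))) s = analyticOrderAt f (conj s) := by
  have hcc : ∀ {g : ℂ → ℂ}, AnalyticAt ℂ g (conj s) → AnalyticAt ℂ (fun z => conj (g (conj z))) s := by
    intro g hg
    rw [Complex.analyticAt_iff_eventually_differentiableAt] at hg ⊢
    have h2 := (Complex.continuous_conj.tendsto s).eventually hg
    filter_upwards [h2] with z hz
    exact differentiableAt_conj_conj_iff.2 hz
  rcases eq_or_ne (analyticOrderAt f (conj s)) ⊤ with h0 | h0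
  · rw [h0, analyticOrderAt_eq_top]
    rw [analyticOrderAt_eq_top] at h0
    have h2 := (Complex.continuous_conj.tendsto s).eventually h0
    filter_upwards [h2] with z hz
    simp [hz]
  · obtain ⟨n, hn⟩ := ENat.ne_top_iff_exists.mp h0
    rw [← hn]
    obtain ⟨g, hg, hg0, hfg⟩ := (h.analyticOrderAt_eq_natCast).mp hn.symm
    rw [(hcc h).analyticOrderAt_eq_natCast]
    refine ⟨fun z => conj (g (conj z)), hcc hg, ?_, ?_⟩
    · simpa using hg0
    · have h2 := (Complex.continuous_conj.tendsto s).eventually hfg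
      filter_upwards [h2] with z hz
      simp only [hz, smul_eq_mul, map_mul, map_pow, map_sub, Complex.conj_conj]

/-- splitting of a sum over zeros on the critical line according to the sign of the ordinate -/
lemma sign_split {M : ℂ → ℝ} {g : ℂ → ℝ} (hM : ∀ s, M (conj s) = M s) (hg : ∀ s, g (conj s) = g s)
    (hline : ∀ s, M s ≠ 0 → s.im = 0 → s = 1 / 2) (hs : Summable (fun s => M s * g s)) :
    ∑' s, M s * g s = M (1 / 2) * g (1 / 2) + 2 * ∑' s, (if 0 < s.im then M s else 0) * g s := by
  classical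
  have e1 : Summable (fun s : ℂ => (if 0 < s.im then M s else 0) * g s) := by
    have := hs.indicator {s : ℂ | 0 < s.im}
    refine this.congr fun s => ?_
    by_cases h : 0 < s.im
    · rw [indicator_of_mem (by exact h), if_pos h]
    · rw [indicator_of_notMem (by exact h), if_neg h, zero_mul]
  have e2 : Summable (fun s : ℂ => (if s.im < 0 then M s else 0) * g s) := by
    have := hs.indicator {s : ℂ | s.im < 0}
    refine this.congr fun s => ?_
    by_cases h : s.im < 0
    · rw [indicator_of_mem (by exact h), if_pos h]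
    · rw [indicator_of_notMem (by exact h), if_neg h, zero_mul]
  have e3 : Summable (fun s : ℂ => (if s.im = 0 then M s else 0) * g s) := by
    have := hs.indicator {s : ℂ | s.im = 0}
    refine this.congr fun s => ?_
    by_cases h : s.im = 0
    · rw [indicator_of_mem (by exact h), if_pos h]
    · rw [indicator_of_notMem (by exact h), if_neg h, zero_mul]
  have h1 : ∑' s, M s * g s = ∑' s : ℂ, (if s.im = 0 then M s else 0) * g s +
      (∑' s : ℂ, (if 0 < s.im then M s else 0) * g s + ∑' s : ℂ, (if s.im < 0 then M s else 0) * g s) := by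
    rw [← e1.tsum_add e2, ← e3.tsum_add (e1.add e2)]
    refine tsum_congr fun s => ?_
    rcases lt_trichotomy s.im 0 with h | h | h
    · rw [if_neg h.ne, if_neg (not_lt.2 h.le), if_pos h]; ring
    · rw [if_pos h, if_neg (by rw [h]; exact lt_irrefl 0), if_neg (by rw [h]; exact lt_irrefl 0)]; ring
    · rw [if_neg h.ne', if_pos h, if_neg (not_lt.2 h.le)]; ring
  have h2 : ∑' s : ℂ, (if s.im = 0 then M s else 0) * g s = M (1 / 2) * g (1 / 2) := by
    rw [tsum_eq_single (1 / 2 : ℂ)]
    · rw [if_pos (by simp)]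
    · intro s hne
      split_ifs with h
      · have : M s = 0 := by
          by_contra h0
          exact hne (hline s h0 h)
        rw [this, zero_mul]
      · rw [zero_mul]
  have h3 : ∑' s : ℂ, (if s.im < 0 then M s else 0) * g s = ∑' s : ℂ, (if 0 < s.im then M s else 0) * g s := by
    have hE : Function.Involutive (fun s : ℂ => conj s) := fun s => Complex.conj_conj s
    rw [← (hE.toPerm).tsum_eq (fun s : ℂ => (if s.im < 0 then M s else 0) * g s)]
    refine tsum_congr fun s => ?_
    show (if (conj s).im < 0 then M (conj s) else 0) * g (conj s) = _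
    rw [hM, hg, Complex.conj_im]
    simp only [neg_lt_zero]
  rw [h1, h2, h3]
  ring

end Pool.Agent.E8helper14.LI
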