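import Pool.Agent.E8helper14.LI.Pf

/-! # Landau's theorem for exponential sums -/

set_option autoImplicit false

namespace Pool.Agent.E8helper14.LI

open Filter Topology MeasureTheory Set
open Pool.Agent.W263.BSD

/-- the exponential sum -/
noncomputable def ZZ (D : ℂ → ℂ) (v : ℝ) : ℂ := ∑' w : ℂ, D w * Complex.exp (w * v)

/-- the data -/
structure LD (D : ℂ → ℂ) (S κ : ℝ → ℝ) (B : ℝ) : Prop where
  pf : PF D
  hre : ∀ w, D w ≠ 0 → w.re ≤ 1 / 2
  hpos : ∀ x : ℝ, D x ≠ 0 → 0 < x → 0 < (D x).re ∧ (D x).im = 0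
  hS : Measurable S
  hκ : Measurable κ
  hB : ∀ v : ℝ, 0 < v → ‖ZZ D v - S v‖ ≤ B
  hκi : ∀ w > 0, LInt κ w
  hle : ∀ v : ℝ, 0 < v → S v ≤ κ v

variable {D : ℂ → ℂ} {S κ : ℝ → ℝ} {B : ℝ}

lemma exp_int {c : ℝ} (hc : c < 0) : IntegrableOn (fun v : ℝ => Real.exp (c * v)) (Ioi 0) :=
  integrableOn_exp_mul_Ioi hc 0

lemma LInt_bdd {f : ℝ → ℝ} (hf : AEStronglyMeasurable f (volume.restrict (Ioi (0 : ℝ)))) {B : ℝ}
    (hB : ∀ v : ℝ, 0 < v → |f v| ≤ B) {w : ℝ} (hw : 0 < w) : LInt f w := by
  unfold LInt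
  have h1 : IntegrableOn (fun v : ℝ => Real.exp (-w * v)) (Ioi 0) := exp_int (by linarith)
  refine Integrable.mono' (h1.const_mul B) (hf.mul (by fun_prop)) ?_
  refine (ae_restrict_iff' measurableSet_Ioi).mpr (Eventually.of_forall fun v hv => ?_)
  rw [norm_mul, Real.norm_of_nonneg (Real.exp_pos _).le, Real.norm_eq_abs, ← neg_mul]
  exact mul_le_mul_of_nonneg_right (hB v hv) (Real.exp_pos _).le

/-- locally bounded and continuity of `Z` on the half-line -/
lemma ZZ_cont (h : PF D) (hre : ∀ w, D w ≠ 0 → w.re ≤ 1 / 2) : Continuous (fun v : ℝ => ZZ D (max v 0)) := by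
  rw [continuous_iff_continuousAt]
  intro v0
  have hU : {v : ℝ | v < |v0| + 1} ∈ 𝓝 v0 :=
    (isOpen_lt continuous_id continuous_const).mem_nhds (by
      show v0 < |v0| + 1
      linarith [le_abs_self v0])
  have hco : ContinuousOn (fun v : ℝ => ZZ D (max v 0)) {v : ℝ | v < |v0| + 1} := by
    unfold ZZ
    refine continuousOn_tsum (u := fun w => ‖D w‖ * Real.exp (|v0| + 1)) (fun w => ?_) (h.sum.mul_right _)
      fun w v hv => ?_
    · fun_prop
    · by_cases h0 : D w = 0
      · simp [h0]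
      rw [norm_mul, Complex.norm_exp]
      refine mul_le_mul_of_nonneg_left (Real.exp_le_exp.2 ?_) (norm_nonneg _)
      rw [Complex.mul_re, Complex.ofReal_re, Complex.ofReal_im, mul_zero, sub_zero]
      have h1 := hre w h0
      have h2 : max v 0 ≤ |v0| + 1 := max_le (le_of_lt hv) (by positivity)
      have h3 : 0 ≤ max v 0 := le_max_right _ _
      nlinarith
  exact hco.continuousAt hU

/-- the error, real part and imaginary part -/
noncomputable def er (D : ℂ → ℂ) (S : ℝ → ℝ) (v : ℝ) : ℝ := (ZZ D (max v 0)).re - S v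

/-- the error, imaginary part -/
noncomputable def ei (D : ℂ → ℂ) (v : ℝ) : ℝ := (ZZ D (max v 0)).im

lemma LD.er_meas (L : LD D S κ B) : Measurable (er D S) :=
  (Complex.measurable_re.comp (ZZ_cont L.pf L.hre).measurable).sub L.hS

lemma LD.ei_meas (L : LD D S κ B) : Measurable (ei D) :=
  Complex.measurable_im.comp (ZZ_cont L.pf L.hre).measurable

lemma LD.er_le (L : LD D S κ B) {v : ℝ} (hv : 0 < v) : |er D S v| ≤ B := by
  have h := L.hB v hv
  have h1 := (Complex.abs_re_le_norm (ZZ D v - S v)).trans h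
  rw [Complex.sub_re, Complex.ofReal_re] at h1
  unfold er
  rwa [max_eq_left hv.le]

lemma LD.ei_le (L : LD D S κ B) {v : ℝ} (hv : 0 < v) : |ei D v| ≤ B := by
  have h := L.hB v hv
  have h1 := (Complex.abs_im_le_norm (ZZ D v - S v)).trans h
  rw [Complex.sub_im, Complex.ofReal_im, sub_zero] at h1
  unfold ei
  rwa [max_eq_left hv.le]

lemma LD.er_int (L : LD D S κ B) {w : ℝ} (hw : 0 < w) : LInt (er D S) w :=
  LInt_bdd L.er_meas.aestronglyMeasurable (fun _ hv => L.er_le hv) hw

lemma LD.ei_int (L : LD D S κ B) {w : ℝ} (hw : 0 < w) : LInt (ei D) w :=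
  LInt_bdd L.ei_meas.aestronglyMeasurable (fun _ hv => L.ei_le hv) hw

/-- the transform of the error -/
noncomputable def Er (D : ℂ → ℂ) (S : ℝ → ℝ) (z : ℂ) : ℂ := lapC (er D S) z + Complex.I * lapC (ei D) z

lemma LD.Er_diff (L : LD D S κ B) {z : ℂ} (hz : 0 < z.re) : DifferentiableAt ℂ (Er D S) z := by
  have h1 := lapC_differentiableAt L.er_meas (fun w hw => L.er_int hw) hz
  have h2 := lapC_differentiableAt L.ei_meas (fun w hw => L.ei_int hw) hz
  have h3 : DifferentiableAt ℂ (fun z => lapC (er D S) z + Complex.I * lapC (ei D) z) z := by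
    fun_prop
  exact h3

lemma LD.S_int0 (L : LD D S κ B) : ∀ w > 1 / 2, LInt S w := by
  intro w hw
  unfold LInt
  have h1 : IntegrableOn (fun v : ℝ => Real.exp ((1 / 2 - w) * v)) (Ioi 0) := exp_int (by linarith)
  have h2 : IntegrableOn (fun v : ℝ => Real.exp (-w * v)) (Ioi 0) := exp_int (by linarith)
  refine Integrable.mono' ((h1.const_mul (∑' w, ‖D w‖)).add (h2.const_mul B))
    ((L.hS.aestronglyMeasurable).mul (by fun_prop)) ?_
  refine (ae_restrict_iff' measurableSet_Ioi).mpr (Eventually.of_forall fun v hv => ?_)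
  have hv' : (0 : ℝ) < v := hv
  have h3 : ‖ZZ D v‖ ≤ (∑' w, ‖D w‖) * Real.exp (1 / 2 * v) := by
    unfold ZZ
    refine tsum_of_norm_bounded ((L.pf.sum.hasSum).mul_right _) fun w => ?_
    by_cases h0 : D w = 0
    · simp [h0]
    rw [norm_mul, Complex.norm_exp]
    refine mul_le_mul_of_nonneg_left (Real.exp_le_exp.2 ?_) (norm_nonneg _)
    rw [Complex.mul_re, Complex.ofReal_re, Complex.ofReal_im, mul_zero, sub_zero]
    exact mul_le_mul_of_nonneg_right (L.hre w h0) hv'.le
  have h4 : |S v| ≤ (∑' w, ‖D w‖) * Real.exp (1 / 2 * v) + B := by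
    have h5 := L.hB v hv
    have h6 : ‖(S v : ℂ)‖ ≤ ‖ZZ D v‖ + ‖ZZ D v - S v‖ := by
      have := norm_sub_le (ZZ D v) (ZZ D v - S v)
      rwa [sub_sub_cancel] at this
    rw [Complex.norm_real, Real.norm_eq_abs] at h6
    linarith
  rw [norm_mul, Real.norm_of_nonneg (Real.exp_pos _).le, Real.norm_eq_abs]
  have h7 := mul_le_mul_of_nonneg_right h4 (Real.exp_pos (-(w * v))).le
  refine h7.trans (le_of_eq ?_)
  simp only [Pi.add_apply]
  rw [add_mul, mul_assoc, ← Real.exp_add]
  congr 2
  · congr 1; ring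
  · congr 1; ring

lemma LD.lap_eq (L : LD D S κ B) {z : ℂ} (hz : 1 / 2 < z.re) :
    lapC S z = PW D z - Er D S z := by
  obtain ⟨h1, h2⟩ := lap_Z L.pf L.hre hz
  have h3 := LInt.complex L.er_meas (z := z) (L.er_int (by linarith))
  have h4 := LInt.complex L.ei_meas (z := z) (L.ei_int (by linarith))
  rw [← h2]
  unfold Er lapC
  have h6 : IntegrableOn (fun v : ℝ => (er D S v : ℂ) * Complex.exp (-(z * v)) +
      Complex.I * ((ei D v : ℂ) * Complex.exp (-(z * v)))) (Ioi 0) := h3.add (h4.const_mul Complex.I)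
  rw [← integral_const_mul, ← integral_add h3 (h4.const_mul _), ← integral_sub h1 h6]
  refine setIntegral_congr_fun measurableSet_Ioi fun v hv => ?_
  have hv' : (0 : ℝ) < v := hv
  have h5 : (∑' w : ℂ, D w * Complex.exp (w * v)) = ((er D S v : ℝ) : ℂ) + Complex.I * (ei D v : ℝ) + S v := by
    unfold er ei
    rw [max_eq_left hv'.le]
    apply Complex.ext <;> simp [ZZ]
  rw [h5]
  ring

/-- holomorphy of the transform excludes poles -/
lemma LD.key (L : LD D S κ B) {σ : ℝ} (hσ : 0 ≤ σ) (hconv : ∀ w > σ, LInt S w) {z0 : ℂ} (hz0 : σ < z0.re) :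
    D z0 = 0 ∧ lapC S z0 = PW D z0 - Er D S z0 := by
  have hU : IsPreconnected {z : ℂ | σ < z.re} := (convex_halfSpace_re_gt σ).isPreconnected
  have hUo : IsOpen {z : ℂ | σ < z.re} := isOpen_lt continuous_const Complex.continuous_re
  set f : ℂ → ℂ := fun z => lapC S z - (PW D z - Er D S z) with hf
  have hPW : ∀ z, MeromorphicAt (PW D) z := by
    intro z
    obtain ⟨g, hg, he⟩ := L.pf.loc z
    have h1 : MeromorphicAt (fun y => D z / (y - z) + g y) z := by
      refine MeromorphicAt.fun_add ?_ hg.meromorphicAt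
      exact MeromorphicAt.fun_div (MeromorphicAt.const _ _) (by fun_prop)
    exact h1.congr (he.filter_mono nhdsWithin_le_nhds |>.mono fun y hy => hy.symm)
  have hSan : ∀ z : ℂ, σ < z.re → AnalyticAt ℂ (lapC S) z := by
    intro z hz
    have : DifferentiableOn ℂ (lapC S) {z : ℂ | σ < z.re} := fun y hy =>
      (lapC_differentiableAt L.hS hconv hy).differentiableWithinAt
    exact this.analyticAt (hUo.mem_nhds hz)
  have hEan : ∀ z : ℂ, σ < z.re → AnalyticAt ℂ (Er D S) z := by
    intro z hz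
    have : DifferentiableOn ℂ (Er D S) {z : ℂ | σ < z.re} := fun y hy =>
      (L.Er_diff (lt_of_le_of_lt hσ hy)).differentiableWithinAt
    exact this.analyticAt (hUo.mem_nhds hz)
  have hfm : MeromorphicOn f {z : ℂ | σ < z.re} := by
    intro z hz
    exact (hSan z hz).meromorphicAt.sub ((hPW z).sub (hEan z hz).meromorphicAt)
  set z1 : ℂ := ((max σ (1 / 2) + 1 : ℝ) : ℂ) with hz1
  have hz1a : σ < z1.re := by
    rw [hz1, Complex.ofReal_re]; linarith [le_max_left σ (1 / 2)]
  have hz1b : 1 / 2 < z1.re := by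
    rw [hz1, Complex.ofReal_re]; linarith [le_max_right σ (1 / 2)]
  have htop1 : meromorphicOrderAt f z1 = ⊤ := by
    rw [meromorphicOrderAt_eq_top_iff]
    refine Filter.Eventually.filter_mono nhdsWithin_le_nhds ?_
    filter_upwards [(isOpen_lt continuous_const Complex.continuous_re).mem_nhds hz1b] with z hz
    simp only [hf]
    rw [L.lap_eq hz, sub_self]
  have htop : meromorphicOrderAt f z0 = ⊤ := by
    by_contra hne
    exact hfm.meromorphicOrderAt_ne_top_of_isPreconnected hU hz0 hz1a hne htop1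
  rw [meromorphicOrderAt_eq_top_iff] at htop
  obtain ⟨g, hg, he⟩ := L.pf.loc z0
  have h1 : ∀ᶠ z in 𝓝[≠] z0, lapC S z = D z0 / (z - z0) + g z - Er D S z := by
    filter_upwards [htop, he.filter_mono nhdsWithin_le_nhds] with z h1 h2
    simp only [hf] at h1
    rw [← h2]
    exact sub_eq_zero.1 h1
  have hcS := (hSan z0 hz0).continuousAt
  have hcE := (hEan z0 hz0).continuousAt
  have hcg := hg.continuousAt
  have hD : D z0 = 0 := by
    have h2 : Tendsto (fun z => (z - z0) * (lapC S z - g z + Er D S z)) (𝓝[≠] z0)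
        (𝓝 ((z0 - z0) * (lapC S z0 - g z0 + Er D S z0))) := by
      refine Tendsto.mono_left ?_ nhdsWithin_le_nhds
      exact ((continuousAt_id.sub continuousAt_const).mul ((hcS.sub hcg).add hcE)).tendsto
    rw [sub_self, zero_mul] at h2
    refine tendsto_nhds_unique (tendsto_const_nhds.congr' ?_) h2
    filter_upwards [h1, self_mem_nhdsWithin] with z h3 h4
    have h5 : z - z0 ≠ 0 := sub_ne_zero.2 h4
    rw [h3]
    field_simp
    ring
  refine ⟨hD, ?_⟩
  have h2 : PW D z0 = g z0 := by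
    have := he.self_of_nhds
    rw [this, hD, zero_div, zero_add]
  rw [h2]
  have h3 : Tendsto (lapC S) (𝓝[≠] z0) (𝓝 (lapC S z0)) := hcS.tendsto.mono_left nhdsWithin_le_nhds
  have h4 : Tendsto (fun z => g z - Er D S z) (𝓝[≠] z0) (𝓝 (g z0 - Er D S z0)) :=
    (hcg.sub hcE).tendsto.mono_left nhdsWithin_le_nhds
  refine tendsto_nhds_unique (h3.congr' ?_) h4
  filter_upwards [h1] with z h5
  rw [h5, hD, zero_div, zero_add]

/-- **Landau's theorem** -/
theorem LD.main (L : LD D S κ B) : ∀ w, D w ≠ 0 → w.re ≤ 0 := by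
  suffices hall : ∀ w > 0, LInt S w by
    intro w hw
    by_contra hcon
    push Not at hcon
    exact hw (L.key le_rfl hall hcon).1
  set T : Set ℝ := {w | 0 ≤ w ∧ ∀ w' > w, LInt S w'} with hT
  have hTne : T.Nonempty := ⟨1 / 2, by norm_num, L.S_int0⟩
  have hTb : BddBelow T := ⟨0, fun w hw => hw.1⟩
  set s := sInf T with hs
  have hs0 : 0 ≤ s := le_csInf hTne fun w hw => hw.1
  have hconv : ∀ w > s, LInt S w := by
    intro w hw
    obtain ⟨t, ht, htw⟩ := exists_lt_of_csInf_lt hTne hw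
    exact ht.2 w htw
  rcases hs0.eq_or_lt with h0 | hspos
  · rw [h0]; exact hconv
  exfalso
  set b : ℝ → ℝ := fun u => κ u - S u with hbdef
  have hbm : Measurable b := L.hκ.sub L.hS
  have hb0 : ∀ u, 0 < u → 0 ≤ b u := fun u hu => by
    have := L.hle u hu
    simp only [hbdef]; linarith
  have hbi : ∀ w > s, LInt b w := fun w hw => (L.hκi w (by linarith)).sub (hconv w hw)
  have hlapb : ∀ w > s, ((lap b w : ℝ) : ℂ) = lapC κ w - (PW D w - Er D S w) := by
    intro w hw
    rw [← (L.key hs0 hconv (z0 := (w : ℂ)) (by simpa using hw)).2, lapC_ofReal, lapC_ofReal,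
      ← Complex.ofReal_sub, hbdef, lap_sub (L.hκi w (by linarith)) (hconv w hw)]
  obtain ⟨g, hg, he⟩ := L.pf.loc (s : ℂ)
  have hκan : AnalyticAt ℂ (lapC κ) (s : ℂ) := by
    have : DifferentiableOn ℂ (lapC κ) {z : ℂ | 0 < z.re} := fun y hy =>
      (lapC_differentiableAt L.hκ L.hκi hy).differentiableWithinAt
    exact this.analyticAt ((isOpen_lt continuous_const Complex.continuous_re).mem_nhds (by simpa using hspos))
  have hEan : AnalyticAt ℂ (Er D S) (s : ℂ) := by
    have : DifferentiableOn ℂ (Er D S) {z : ℂ | 0 < z.re} := fun y hy =>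
      (L.Er_diff hy).differentiableWithinAt
    exact this.analyticAt ((isOpen_lt continuous_const Complex.continuous_re).mem_nhds (by simpa using hspos))
  have hcoe : Tendsto (fun w : ℝ => (w : ℂ)) (𝓝[>] s) (𝓝 (s : ℂ)) :=
    (Complex.continuous_ofReal.tendsto s).mono_left nhdsWithin_le_nhds
  by_cases hDs : D s = 0
  · -- no pole at `s`: Landau
    have hev : ∀ᶠ z in 𝓝 (s : ℂ), PW D z = g z := by
      filter_upwards [he] with z hz
      rw [hz, hDs, zero_div, zero_add]
    set G : ℂ → ℂ := fun z => lapC κ (-z) - (g (-z) - Er D S (-z)) with hG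
    have hGa : AnalyticAt ℂ G ((-s : ℝ) : ℂ) := by
      have hneg : AnalyticAt ℂ (fun z : ℂ => -z) ((-s : ℝ) : ℂ) := by fun_prop
      have e : (fun z : ℂ => -z) ((-s : ℝ) : ℂ) = (s : ℂ) := by push_cast; ring
      have h1 : AnalyticAt ℂ (fun z => lapC κ (-z)) ((-s : ℝ) : ℂ) :=
        AnalyticAt.fun_comp_of_eq (g := lapC κ) hκan hneg e
      have h2 : AnalyticAt ℂ (fun z => g (-z)) ((-s : ℝ) : ℂ) :=
        AnalyticAt.fun_comp_of_eq (g := g) hg hneg e
      have h3 : AnalyticAt ℂ (fun z => Er D S (-z)) ((-s : ℝ) : ℂ) :=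
        AnalyticAt.fun_comp_of_eq (g := Er D S) hEan hneg e
      exact h1.sub (h2.sub h3)
    have hgr : AnalyticAt ℝ (fun t : ℝ => (G t).re) (-s) := hGa.re_ofReal
    obtain ⟨t, hts, ht⟩ := landau (X := id) (μ := dens b) (dens_pos b hbm) hgr
      (fun t ht => (mem_integrableExpSet_dens hbm hb0 t).mpr (hbi (-t) (by linarith))) (by
        have h5 : Tendsto (fun t : ℝ => ((-t : ℝ) : ℂ)) (𝓝[<] (-s)) (𝓝 (s : ℂ)) := by
          have : Tendsto (fun t : ℝ => ((-t : ℝ) : ℂ)) (𝓝 (-s)) (𝓝 ((-(-s) : ℝ) : ℂ)) :=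
            (Complex.continuous_ofReal.comp continuous_neg).tendsto (-s)
          rw [neg_neg] at this
          exact this.mono_left nhdsWithin_le_nhds
        filter_upwards [self_mem_nhdsWithin, h5.eventually hev] with t ht h6
        have ht' : t < -s := ht
        rw [mgf_dens hbm hb0]
        have h7 := hlapb (-t) (by linarith)
        have h8 : G t = lapC κ ((-t : ℝ) : ℂ) - (PW D ((-t : ℝ) : ℂ) - Er D S ((-t : ℝ) : ℂ)) := by
          rw [h6]
          simp only [hG]
          push_cast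
          ring
        rw [h8, ← h7, Complex.ofReal_re])
    have ht1 : LInt b (-t) := (mem_integrableExpSet_dens hbm hb0 t).mp ht
    set t' : ℝ := max (-t) (s / 2) with ht'
    have h5 : t' < s := max_lt (by linarith) (by linarith)
    have h6 : t' ∈ T := by
      refine ⟨le_trans (by linarith) (le_max_right _ _), fun w' hw' => ?_⟩
      have h7 : LInt b w' := ht1.mono hbm (le_trans (le_max_left _ _) hw'.le)
      have h8 : LInt κ w' := L.hκi w' (lt_of_lt_of_le (by linarith) (le_trans (le_max_right _ _) hw'.le))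
      have h9 := h8.sub h7
      have h10 : (fun u => κ u - b u) = S := by
        funext u
        simp only [hbdef]; ring
      rwa [h10] at h9
    have := csInf_le hTb h6
    linarith
  · -- a pole with positive residue at `s`
    obtain ⟨hp1, hp2⟩ := L.hpos s hDs hspos
    set A : ℝ → ℝ := fun w => (lapC κ w - (g w - Er D S w)).re with hA
    have hAt : Tendsto A (𝓝[>] s) (𝓝 (lapC κ s - (g s - Er D S s)).re) := by
      have h1 := ((hκan.continuousAt.sub (hg.continuousAt.sub hEan.continuousAt))).tendsto.comp hcoe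
      exact (Complex.continuous_re.tendsto _).comp h1
    have h2 : ∀ᶠ w : ℝ in 𝓝[>] s, (D s).re * (w - s)⁻¹ ≤ A w := by
      filter_upwards [self_mem_nhdsWithin, hcoe.eventually he] with w hw h3
      have hw' : s < w := hw
      have h4 := hlapb w hw'
      have h5 : 0 ≤ lap b w := lap_nonneg hb0 w
      rw [h3] at h4
      have h6 := congrArg Complex.re h4
      rw [Complex.ofReal_re] at h6
      have h7 : (D s / ((w : ℂ) - s)).re = (D s).re * (w - s)⁻¹ := by
        rw [← Complex.ofReal_sub, Complex.div_ofReal_re, div_eq_mul_inv]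
      have h8 : (lapC κ w - (D s / ((w : ℂ) - s) + g w - Er D S w)).re = A w - (D s).re * (w - s)⁻¹ := by
        rw [← h7]
        simp only [hA, Complex.sub_re, Complex.add_re]
        ring
      rw [h8] at h6
      linarith
    have h3 : Tendsto (fun w : ℝ => (D s).re * (w - s)⁻¹) (𝓝[>] s) atTop := by
      refine Tendsto.const_mul_atTop hp1 ?_
      refine tendsto_inv_nhdsGT_zero.comp ?_
      refine tendsto_nhdsWithin_iff.2 ⟨?_, ?_⟩
      · have : Tendsto (fun w : ℝ => w - s) (𝓝 s) (𝓝 (s - s)) := (continuous_id.sub continuous_const).tendsto s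
        rw [sub_self] at this
        exact this.mono_left nhdsWithin_le_nhds
      · filter_upwards [self_mem_nhdsWithin] with w hw
        have hw' : s < w := hw
        show 0 < w - s
        linarith
    have h4 := tendsto_atTop_mono' _ h2 h3
    exact not_tendsto_atTop_of_tendsto_nhds hAt h4

end Pool.Agent.E8helper14.LI
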