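import Pool.Agent.E8helper14.LI.Mean

/-! # The mean of the exponential of a trigonometric sum, II -/

set_option autoImplicit false

namespace Pool.Agent.E8helper14.LI

open Filter Topology MeasureTheory

section fin

variable {κ : Type*} [Fintype κ]

open Classical in
/-- the mean -/
noncomputable def Mf (c γ : κ → ℝ) : ℝ :=
  ∑' p : (κ → ℕ) × (κ → ℕ), gw c p.1 * gw c p.2 * (if fr γ p.1 - fr γ p.2 = 0 then 1 else 0)

lemma gg_summable {c : κ → ℝ} (hc : ∀ k, 0 ≤ c k) :
    Summable (fun p : (κ → ℕ) × (κ → ℕ) => gw c p.1 * gw c p.2) :=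
  (gw_summable hc).mul_of_nonneg (gw_summable hc) (gw_nonneg hc) (gw_nonneg hc)

lemma mean_fin (c γ : κ → ℝ) (hc : ∀ k, 0 ≤ c k) :
    Tendsto (mn (fun v => Real.exp (∑ k, 2 * c k * Real.cos (γ k * v)))) atTop (𝓝 (Mf c γ)) := by
  classical
  have hg := gg_summable hc
  have h1 : ∀ V : ℝ, 0 < V → mn (fun v => Real.exp (∑ k, 2 * c k * Real.cos (γ k * v))) V =
      ∑' p : (κ → ℕ) × (κ → ℕ), gw c p.1 * gw c p.2 * mn (fun v => Real.cos ((fr γ p.1 - fr γ p.2) * v)) V := by
    intro V hV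
    have h2 : HasSum (fun p : (κ → ℕ) × (κ → ℕ) => ∫ v in Set.Ioc (0 : ℝ) V,
        gw c p.1 * gw c p.2 * Real.cos ((fr γ p.1 - fr γ p.2) * v))
        (∫ v in Set.Ioc (0 : ℝ) V, ∑' p : (κ → ℕ) × (κ → ℕ), gw c p.1 * gw c p.2 * Real.cos ((fr γ p.1 - fr γ p.2) * v)) := by
      refine hasSum_integral_of_summable_integral_norm (fun p => ?_) ?_
      · exact (Continuous.integrableOn_Ioc (by fun_prop))
      · refine Summable.of_nonneg_of_le (fun p => integral_nonneg fun v => norm_nonneg _) (fun p => ?_)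
          (hg.mul_right V)
        have h0 : 0 ≤ gw c p.1 * gw c p.2 := mul_nonneg (gw_nonneg hc _) (gw_nonneg hc _)
        calc ∫ v in Set.Ioc (0 : ℝ) V, ‖gw c p.1 * gw c p.2 * Real.cos ((fr γ p.1 - fr γ p.2) * v)‖
            ≤ ∫ v in Set.Ioc (0 : ℝ) V, gw c p.1 * gw c p.2 := by
              refine setIntegral_mono_on ?_ ?_ measurableSet_Ioc fun v _ => ?_
              · exact (Continuous.integrableOn_Ioc (by fun_prop))
              · exact (Continuous.integrableOn_Ioc (by fun_prop))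
              · rw [norm_mul, Real.norm_of_nonneg h0, Real.norm_eq_abs]
                calc _ ≤ gw c p.1 * gw c p.2 * 1 := mul_le_mul_of_nonneg_left (Real.abs_cos_le_one _) h0
                  _ = _ := mul_one _
          _ = gw c p.1 * gw c p.2 * V := by
              rw [setIntegral_const, smul_eq_mul, mul_comm]
              simp [hV.le]
    have h3 : ∀ v : ℝ, ∑' p : (κ → ℕ) × (κ → ℕ), gw c p.1 * gw c p.2 * Real.cos ((fr γ p.1 - fr γ p.2) * v) =
        Real.exp (∑ k, 2 * c k * Real.cos (γ k * v)) := fun v => (exp_cos_eq hc v).tsum_eq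
    simp_rw [h3] at h2
    unfold mn
    rw [intervalIntegral.integral_of_le hV.le, ← h2.tsum_eq, ← tsum_mul_left]
    refine tsum_congr fun p => ?_
    rw [intervalIntegral.integral_of_le hV.le, integral_const_mul]
    ring
  have h4 : Tendsto (fun V : ℝ => ∑' p : (κ → ℕ) × (κ → ℕ), gw c p.1 * gw c p.2 *
      mn (fun v => Real.cos ((fr γ p.1 - fr γ p.2) * v)) V) atTop (𝓝 (Mf c γ)) := by
    unfold Mf
    refine tendsto_tsum_of_dominated_convergence hg (fun p => ?_) ?_
    · exact (mn_cos_tendsto (fr γ p.1 - fr γ p.2)).const_mul _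
    · filter_upwards [eventually_gt_atTop 0] with V hV p
      have h0 : 0 ≤ gw c p.1 * gw c p.2 := mul_nonneg (gw_nonneg hc _) (gw_nonneg hc _)
      rw [norm_mul, Real.norm_of_nonneg h0, Real.norm_eq_abs]
      calc _ ≤ gw c p.1 * gw c p.2 * 1 := mul_le_mul_of_nonneg_left (mn_cos_le _ V hV) h0
        _ = _ := mul_one _
  refine h4.congr' ?_
  filter_upwards [eventually_gt_atTop 0] with V hV
  exact (h1 V hV).symm

open Classical in
lemma diag_hasSum {c : κ → ℝ} (hc : ∀ k, 0 ≤ c k) :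
    HasSum (fun p : (κ → ℕ) × (κ → ℕ) => if p.1 = p.2 then gw c p.1 * gw c p.2 else 0)
      (∏ k, I0 (c k)) := by
  have h1 : Summable (fun p : (κ → ℕ) × (κ → ℕ) => if p.1 = p.2 then gw c p.1 * gw c p.2 else 0) := by
    refine Summable.of_nonneg_of_le (fun p => ?_) (fun p => ?_) (gg_summable hc)
    · split_ifs
      · exact mul_nonneg (gw_nonneg hc _) (gw_nonneg hc _)
      · exact le_rfl
    · split_ifs
      · exact le_rfl
      · exact mul_nonneg (gw_nonneg hc _) (gw_nonneg hc _)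
  have h2 : ∑' p : (κ → ℕ) × (κ → ℕ), (if p.1 = p.2 then gw c p.1 * gw c p.2 else 0) = ∏ k, I0 (c k) := by
    rw [h1.tsum_prod]
    have : ∀ x : κ → ℕ, ∑' y : κ → ℕ, (if x = y then gw c x * gw c y else 0) = gw c x ^ 2 := by
      intro x
      rw [tsum_eq_single x]
      · rw [if_pos rfl, sq]
      · intro y hy
        rw [if_neg (fun h => hy h.symm)]
    simp only [this]
    exact (gw_sq hc).tsum_eq
  rw [← h2]
  exact h1.hasSum

lemma Mf_summable {c γ : κ → ℝ} (hc : ∀ k, 0 ≤ c k) [DecidableEq ℝ] :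
    Summable (fun p : (κ → ℕ) × (κ → ℕ) => gw c p.1 * gw c p.2 * (if fr γ p.1 - fr γ p.2 = 0 then 1 else 0)) := by
  refine Summable.of_nonneg_of_le (fun p => ?_) (fun p => ?_) (gg_summable hc)
  · have h0 : 0 ≤ gw c p.1 * gw c p.2 := mul_nonneg (gw_nonneg hc _) (gw_nonneg hc _)
    split_ifs <;> simp [h0]
  · have h0 : 0 ≤ gw c p.1 * gw c p.2 := mul_nonneg (gw_nonneg hc _) (gw_nonneg hc _)
    split_ifs <;> simp [h0]

lemma Mf_eq {c γ : κ → ℝ} (hc : ∀ k, 0 ≤ c k) (h : ∀ x y : κ → ℕ, fr γ x = fr γ y → x = y) :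
    Mf c γ = ∏ k, I0 (c k) := by
  classical
  rw [← (diag_hasSum hc).tsum_eq]
  unfold Mf
  refine tsum_congr fun p => ?_
  by_cases hp : p.1 = p.2
  · rw [if_pos hp, hp, sub_self, if_pos rfl, mul_one]
  · rw [if_neg hp, if_neg (fun h0 => hp (h _ _ (sub_eq_zero.1 h0))), mul_zero]

lemma Mf_ge {c γ : κ → ℝ} (hc : ∀ k, 0 ≤ c k) {x y : κ → ℕ} (hxy : x ≠ y) (h : fr γ x = fr γ y) :
    ∏ k, I0 (c k) + 2 * (gw c x * gw c y) ≤ Mf c γ := by
  classical
  have h1 := (diag_hasSum hc).add ((hasSum_ite_eq (x, y) (gw c x * gw c y)).add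
    (hasSum_ite_eq (y, x) (gw c x * gw c y)))
  rw [show ∏ k, I0 (c k) + 2 * (gw c x * gw c y) =
    ∏ k, I0 (c k) + (gw c x * gw c y + gw c x * gw c y) by ring, ← h1.tsum_eq]
  unfold Mf
  refine Summable.tsum_le_tsum (fun p => ?_) h1.summable (Mf_summable hc)
  have h0 : 0 ≤ gw c p.1 * gw c p.2 := mul_nonneg (gw_nonneg hc _) (gw_nonneg hc _)
  have hne : (x, y) ≠ (y, x) := by
    intro he
    exact hxy (Prod.ext_iff.1 he).1
  by_cases hp : p = (x, y)
  · subst hp
    rw [if_neg hxy, if_pos rfl, if_neg hne, zero_add, add_zero, h, sub_self, if_pos rfl, mul_one]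
  · by_cases hp2 : p = (y, x)
    · subst hp2
      rw [if_neg (Ne.symm hxy), if_neg hne.symm, if_pos rfl, zero_add, zero_add, h, sub_self, if_pos rfl, mul_one,
        mul_comm]
    · rw [if_neg hp, if_neg hp2, add_zero, add_zero]
      by_cases hd : p.1 = p.2
      · rw [if_pos hd, hd, sub_self, if_pos rfl, mul_one]
      · rw [if_neg hd]
        split_ifs <;> simp [h0]

lemma Mf_ge_prod {c γ : κ → ℝ} (hc : ∀ k, 0 ≤ c k) : ∏ k, I0 (c k) ≤ Mf c γ := by
  classical
  rw [← (diag_hasSum hc).tsum_eq]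
  unfold Mf
  refine Summable.tsum_le_tsum (fun p => ?_) (diag_hasSum hc).summable (Mf_summable hc)
  have h0 : 0 ≤ gw c p.1 * gw c p.2 := mul_nonneg (gw_nonneg hc _) (gw_nonneg hc _)
  by_cases hd : p.1 = p.2
  · rw [if_pos hd, hd, sub_self, if_pos rfl, mul_one]
  · rw [if_neg hd]
    split_ifs <;> simp [h0]

end fin

end Pool.Agent.E8helper14.LI
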