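import Pool.Agent.E8helper14.LI.Mean2

/-! # The mean of the exponential of an absolutely convergent trigonometric series -/

set_option autoImplicit false

namespace Pool.Agent.E8helper14.LI

open Filter Topology MeasureTheory

variable {ι : Type*}

lemma I0_one_le (c : ℝ) (hc : 0 ≤ c) : 1 ≤ I0 c ∧ I0 c - 1 ≤ 2 * Real.exp (2 * c) * c := by
  have hs : Summable (fun k : ℕ => (c ^ k / (k.factorial : ℝ)) ^ 2) := by
    refine Summable.of_nonneg_of_le (fun n => sq_nonneg _) (fun n => ?_)
      ((Real.summable_pow_div_factorial c).mul_left (Real.exp c))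
    have h0 : 0 ≤ c ^ n / (n.factorial : ℝ) := div_nonneg (pow_nonneg hc _) (Nat.cast_nonneg _)
    rw [sq]
    exact mul_le_mul_of_nonneg_right (Real.pow_div_factorial_le_exp _ hc n) h0
  constructor
  · have h := hs.le_tsum 0 (fun j _ => sq_nonneg _)
    simpa [I0] using h
  · have h1 : I0 c ≤ Real.exp c * Real.exp c := by
      unfold I0
      have h2 : ∑' k : ℕ, Real.exp c * (c ^ k / (k.factorial : ℝ)) = Real.exp c * Real.exp c := by
        rw [tsum_mul_left]
        congr 1
        have := NormedSpace.expSeries_div_hasSum_exp (𝔸 := ℝ) c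
        rw [← Real.exp_eq_exp_ℝ] at this
        exact this.tsum_eq
      rw [← h2]
      refine hs.tsum_le_tsum (fun n => ?_) ((Real.summable_pow_div_factorial c).mul_left (Real.exp c))
      have h0 : 0 ≤ c ^ n / (n.factorial : ℝ) := div_nonneg (pow_nonneg hc _) (Nat.cast_nonneg _)
      rw [sq]
      exact mul_le_mul_of_nonneg_right (Real.pow_div_factorial_le_exp _ hc n) h0
    rw [← Real.exp_add, ← two_mul] at h1
    have h3 : 1 - 2 * c ≤ Real.exp (-(2 * c)) := by
      have := Real.add_one_le_exp (-(2 * c))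
      linarith
    have h4 : Real.exp (2 * c) * Real.exp (-(2 * c)) = 1 := by
      rw [← Real.exp_add]; simp
    have h5 := Real.exp_pos (2 * c)
    nlinarith

lemma I0_mult {c : ι → ℝ} (hc : ∀ i, 0 ≤ c i) (hs : Summable c) : Multipliable (fun i => I0 (c i)) := by
  have h1 : ∀ i, c i ≤ ∑' i, c i := fun i => hs.le_tsum i fun j _ => hc j
  have h2 : Summable (fun i => Real.log (I0 (c i))) := by
    refine Summable.of_nonneg_of_le (fun i => Real.log_nonneg (I0_one_le _ (hc i)).1) (fun i => ?_)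
      (hs.mul_left (2 * Real.exp (2 * ∑' i, c i)))
    have h3 := I0_one_le _ (hc i)
    have h4 := Real.log_le_sub_one_of_pos (lt_of_lt_of_le one_pos h3.1)
    refine h4.trans (h3.2.trans ?_)
    refine mul_le_mul_of_nonneg_right ?_ (hc i)
    refine mul_le_mul_of_nonneg_left (Real.exp_le_exp.2 ?_) (by norm_num)
    linarith [h1 i]
  exact Real.multipliable_of_summable_log (fun i => lt_of_lt_of_le one_pos (I0_one_le _ (hc i)).1) h2

/-- the almost periodic function -/
noncomputable def Fz (c γ : ι → ℝ) (v : ℝ) : ℝ := Real.exp (∑' i, 2 * c i * Real.cos (γ i * v))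

lemma term_summable {c γ : ι → ℝ} (hc : ∀ i, 0 ≤ c i) (hs : Summable c) (v : ℝ) :
    Summable (fun i => 2 * c i * Real.cos (γ i * v)) := by
  refine Summable.of_norm_bounded (hs.mul_left 2) fun i => ?_
  rw [norm_mul, Real.norm_of_nonneg (by have := hc i; positivity), Real.norm_eq_abs]
  calc _ ≤ 2 * c i * 1 := mul_le_mul_of_nonneg_left (Real.abs_cos_le_one _) (by have := hc i; positivity)
    _ = _ := mul_one _

lemma Fz_cont {c γ : ι → ℝ} (hc : ∀ i, 0 ≤ c i) (hs : Summable c) : Continuous (Fz c γ) := by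
  unfold Fz
  refine Real.continuous_exp.comp ?_
  refine continuous_tsum (fun i => by fun_prop) (hs.mul_left 2) fun i v => ?_
  rw [norm_mul, Real.norm_of_nonneg (by have := hc i; positivity), Real.norm_eq_abs]
  calc _ ≤ 2 * c i * 1 := mul_le_mul_of_nonneg_left (Real.abs_cos_le_one _) (by have := hc i; positivity)
    _ = _ := mul_one _

/-- the tail -/
noncomputable def tl (c : ι → ℝ) (J : Finset ι) : ℝ := 2 * (∑' i, c i - ∑ i ∈ J, c i)

lemma tl_tendsto {c : ι → ℝ} (hs : Summable c) : Tendsto (tl c) atTop (𝓝 0) := by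
  have h1 : Tendsto (fun J : Finset ι => ∑ i ∈ J, c i) atTop (𝓝 (∑' i, c i)) := hs.hasSum
  have h2 := (tendsto_const_nhds (x := ∑' i, c i)).sub h1
  have h3 := h2.const_mul 2
  rw [sub_self, mul_zero] at h3
  exact h3

lemma Fz_near {c γ : ι → ℝ} (hc : ∀ i, 0 ≤ c i) (hs : Summable c) (J : Finset ι) (v : ℝ) :
    |(∑' i, 2 * c i * Real.cos (γ i * v)) - ∑ k : J, 2 * c k * Real.cos (γ k * v)| ≤ tl c J := by
  classical
  have h1 := (term_summable (γ := γ) hc hs v)
  rw [← h1.sum_add_tsum_compl (s := J), Finset.sum_coe_sort J (fun i => 2 * c i * Real.cos (γ i * v)),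
    add_sub_cancel_left]
  have h2 : tl c J = ∑' i : ↑((J : Set ι)ᶜ), 2 * c i := by
    unfold tl
    rw [← hs.sum_add_tsum_compl (s := J), add_sub_cancel_left, tsum_mul_left]
  rw [h2, ← Real.norm_eq_abs]
  refine tsum_of_norm_bounded ((hs.mul_left 2).subtype _).hasSum fun i => ?_
  rw [norm_mul, Real.norm_of_nonneg (by have := hc i; positivity), Real.norm_eq_abs]
  calc _ ≤ 2 * c i * 1 := mul_le_mul_of_nonneg_left (Real.abs_cos_le_one _) (by have := hc i; positivity)
    _ = _ := mul_one _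

lemma mn_mono {F G : ℝ → ℝ} (hF : Continuous F) (hG : Continuous G) {V : ℝ} (hV : 0 < V)
    (h : ∀ v, F v ≤ G v) : mn F V ≤ mn G V := by
  unfold mn
  refine mul_le_mul_of_nonneg_left ?_ (inv_pos.2 hV).le
  exact intervalIntegral.integral_mono_on hV.le (hF.intervalIntegrable _ _) (hG.intervalIntegrable _ _)
    fun v _ => h v

lemma mn_const_mul (a : ℝ) (F : ℝ → ℝ) (V : ℝ) : mn (fun v => a * F v) V = a * mn F V := by
  unfold mn
  rw [intervalIntegral.integral_const_mul]
  ring

lemma mn_sandwich {c γ : ι → ℝ} (hc : ∀ i, 0 ≤ c i) (hs : Summable c) (J : Finset ι) {V : ℝ} (hV : 0 < V) :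
    Real.exp (-tl c J) * mn (fun v => Real.exp (∑ k : J, 2 * c k * Real.cos (γ k * v))) V ≤ mn (Fz c γ) V ∧
    mn (Fz c γ) V ≤ Real.exp (tl c J) * mn (fun v => Real.exp (∑ k : J, 2 * c k * Real.cos (γ k * v))) V := by
  have hcont : Continuous (fun v => Real.exp (∑ k : J, 2 * c k * Real.cos (γ k * v))) := by fun_prop
  rw [← mn_const_mul, ← mn_const_mul]
  constructor
  · refine mn_mono (by fun_prop) (Fz_cont hc hs) hV fun v => ?_
    rw [← Real.exp_add]
    unfold Fz
    refine Real.exp_le_exp.2 ?_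
    have := (abs_le.1 (Fz_near (γ := γ) hc hs J v)).1
    linarith
  · refine mn_mono (Fz_cont hc hs) (by fun_prop) hV fun v => ?_
    rw [← Real.exp_add]
    unfold Fz
    refine Real.exp_le_exp.2 ?_
    have := (abs_le.1 (Fz_near (γ := γ) hc hs J v)).2
    linarith

lemma prod_tendsto {c : ι → ℝ} (hc : ∀ i, 0 ≤ c i) (hs : Summable c) :
    Tendsto (fun J : Finset ι => ∏ k : J, I0 (c k)) atTop (𝓝 (∏' i, I0 (c i))) := by
  have h := (I0_mult hc hs).hasProd
  have h1 : Tendsto (fun J : Finset ι => ∏ i ∈ J, I0 (c i)) atTop (𝓝 (∏' i, I0 (c i))) := h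
  refine h1.congr fun J => ?_
  rw [Finset.prod_coe_sort J (fun i => I0 (c i))]

lemma fr_eq_iff {γ : ι → ℝ} (J : Finset ι) (hLI : LinearIndependent ℚ γ) (x y : J → ℕ)
    (h : fr (fun k : J => γ k) x = fr (fun k : J => γ k) y) : x = y := by
  have h1 : LinearIndependent ℤ γ := (LinearIndependent.iff_fractionRing ℤ ℚ).2 hLI
  have h2 : LinearIndependent ℤ (fun k : J => γ k) := h1.comp _ Subtype.val_injective
  rw [Fintype.linearIndependent_iff] at h2
  have h3 := h2 (fun k => (x k : ℤ) - y k) (by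
    unfold fr at h
    have : ∑ k : J, (((x k : ℤ) - y k) • γ k) = (∑ k : J, (x k : ℝ) * γ k) - ∑ k : J, (y k : ℝ) * γ k := by
      rw [← Finset.sum_sub_distrib]
      refine Finset.sum_congr rfl fun k _ => ?_
      rw [zsmul_eq_mul]
      push_cast
      ring
    rw [this, h, sub_self])
  funext k
  have := h3 k
  omega

theorem mean_LI {c γ : ι → ℝ} (hc : ∀ i, 0 ≤ c i) (hs : Summable c) (hLI : LinearIndependent ℚ γ) :
    Tendsto (mn (Fz c γ)) atTop (𝓝 (∏' i, I0 (c i))) := by
  rw [Metric.tendsto_atTop']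
  intro ε hε
  set R := ∏' i, I0 (c i) with hR
  have ht := tl_tendsto hs
  have hp := prod_tendsto hc hs
  have h1 : Tendsto (fun J : Finset ι => Real.exp (tl c J) * ((∏ k : J, I0 (c k)) + ε / 2)) atTop
      (𝓝 (R + ε / 2)) := by
    have := (ht.rexp).mul (hp.add_const (ε / 2))
    simpa using this
  have h2 : Tendsto (fun J : Finset ι => Real.exp (-tl c J) * ((∏ k : J, I0 (c k)) - ε / 2)) atTop
      (𝓝 (R - ε / 2)) := by
    have := ((ht.neg).rexp).mul (hp.sub_const (ε / 2))
    simpa using this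
  obtain ⟨J, hJ1, hJ2⟩ := ((h1.eventually_lt_const (show R + ε / 2 < R + ε by linarith)).and
    (h2.eventually_const_lt (show R - ε < R - ε / 2 by linarith))).exists
  have h3 := mean_fin (fun k : J => c k) (fun k : J => γ k) (fun k => hc k)
  rw [Mf_eq (κ := J) (c := fun k : J => c k) (γ := fun k : J => γ k) (fun k => hc k) (fr_eq_iff J hLI)] at h3
  obtain ⟨V0, hV0⟩ := (Metric.tendsto_atTop.1 h3) (ε / 2) (by positivity)
  refine ⟨max V0 0, fun V hV => ?_⟩
  have hVp : 0 < V := lt_of_le_of_lt (le_max_right _ _) hV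
  have h4 := hV0 V (le_trans (le_max_left _ _) hV.le)
  obtain ⟨h5, h6⟩ := mn_sandwich (γ := γ) hc hs J hVp
  rw [Real.dist_eq, abs_lt] at h4 ⊢
  have h7 := Real.exp_pos (tl c J)
  have h8 := Real.exp_pos (-tl c J)
  constructor
  · have : Real.exp (-tl c J) * ((∏ k : J, I0 (c k)) - ε / 2) ≤
        Real.exp (-tl c J) * mn (fun v => Real.exp (∑ k : J, 2 * c k * Real.cos (γ k * v))) V :=
      mul_le_mul_of_nonneg_left (by linarith [h4.1]) h8.le
    linarith
  · have : Real.exp (tl c J) * mn (fun v => Real.exp (∑ k : J, 2 * c k * Real.cos (γ k * v))) V ≤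
        Real.exp (tl c J) * ((∏ k : J, I0 (c k)) + ε / 2) :=
      mul_le_mul_of_nonneg_left (by linarith [h4.2]) h7.le
    linarith

theorem mean_notLI {c γ : ι → ℝ} (hc : ∀ i, 0 < c i) (hs : Summable c) (hLI : ¬ LinearIndependent ℚ γ) :
    ∃ δ : ℝ, 0 < δ ∧ ∀ᶠ V in atTop, ∏' i, I0 (c i) + δ ≤ mn (Fz c γ) V := by
  classical
  have hc0 : ∀ i, 0 ≤ c i := fun i => (hc i).le
  rw [← LinearIndependent.iff_fractionRing ℤ ℚ, not_linearIndependent_iff] at hLI
  obtain ⟨J0, g, hg0, i0, hi0, hgi⟩ := hLI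
  set R := ∏' i, I0 (c i) with hR
  -- the two vectors
  set X : ι → ℕ := fun i => if i ∈ J0 then (g i).toNat else 0 with hX
  set Y : ι → ℕ := fun i => if i ∈ J0 then (-g i).toNat else 0 with hY
  set δ0 : ℝ := (∏ i ∈ J0, c i ^ X i / ((X i).factorial : ℝ)) * (∏ i ∈ J0, c i ^ Y i / ((Y i).factorial : ℝ)) with hδ0
  have hδ0p : 0 < δ0 := by
    refine mul_pos (Finset.prod_pos fun i _ => ?_) (Finset.prod_pos fun i _ => ?_)
    · exact div_pos (pow_pos (hc i) _) (by exact_mod_cast Nat.factorial_pos _)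
    · exact div_pos (pow_pos (hc i) _) (by exact_mod_cast Nat.factorial_pos _)
  refine ⟨δ0 / 2, by positivity, ?_⟩
  have ht := tl_tendsto hs
  have hp := prod_tendsto hc0 hs
  have h2 : Tendsto (fun J : Finset ι => Real.exp (-tl c J) * ((∏ k : J, I0 (c k)) + 3 * δ0 / 4)) atTop
      (𝓝 (R + 3 * δ0 / 4)) := by
    have := ((ht.neg).rexp).mul (hp.add_const (3 * δ0 / 4))
    simpa using this
  obtain ⟨J, hJ1, hJ2⟩ := ((h2.eventually_const_lt (show R + δ0 / 2 < R + 3 * δ0 / 4 by linarith)).and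
    (eventually_ge_atTop J0)).exists
  have h3 := mean_fin (fun k : J => c k) (fun k : J => γ k) (fun k => hc0 k)
  have hext : ∀ Z : ι → ℕ, (∀ i, i ∉ J0 → Z i = 0) →
      gw (fun k : J => c k) (fun k : J => Z k) = ∏ i ∈ J0, c i ^ Z i / ((Z i).factorial : ℝ) := by
    intro Z hZ
    unfold gw
    rw [Finset.prod_coe_sort J (fun i => c i ^ Z i / ((Z i).factorial : ℝ))]
    symm
    refine Finset.prod_subset hJ2 fun i _ hi => ?_
    rw [hZ i hi]
    simp
  have h4 : ∏ k : J, I0 (c k) + δ0 ≤ Mf (fun k : J => c k) (fun k : J => γ k) := by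
    suffices h44 : ∏ k : J, I0 (c k) + 2 * δ0 ≤ Mf (fun k : J => c k) (fun k : J => γ k) by linarith
    have := Mf_ge (c := fun k : J => c k) (γ := fun k : J => γ k) (fun k => hc0 k)
      (x := fun k : J => X k) (y := fun k : J => Y k) ?_ ?_
    · rw [hext X (fun i hi => by simp [hX, hi]), hext Y (fun i hi => by simp [hY, hi])] at this
      exact this
    · intro he
      have h5 := congrFun he ⟨i0, hJ2 hi0⟩
      simp only [hX, hY, if_pos hi0] at h5
      omega
    · unfold fr
      rw [Finset.sum_coe_sort J (fun i => (X i : ℝ) * γ i), Finset.sum_coe_sort J (fun i => (Y i : ℝ) * γ i)]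
      rw [← sub_eq_zero, ← Finset.sum_sub_distrib, ← hg0]
      symm
      rw [← Finset.sum_subset hJ2 (f := fun i => (X i : ℝ) * γ i - (Y i : ℝ) * γ i)]
      · refine Finset.sum_congr rfl fun i hi => ?_
        rw [zsmul_eq_mul]
        have h6 : ((X i : ℤ) : ℝ) - ((Y i : ℤ) : ℝ) = (g i : ℝ) := by
          rw [← Int.cast_sub]
          congr 1
          simp only [hX, hY, if_pos hi]
          omega
        push_cast at h6
        rw [← h6]
        ring
      · intro i _ hi
        simp [hX, hY, hi]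
  have h5 : ∀ᶠ V in atTop, ∏ k : J, I0 (c k) + 3 * δ0 / 4 ≤
      mn (fun v => Real.exp (∑ k : J, 2 * c k * Real.cos (γ k * v))) V := by
    have := h3.eventually_const_lt (show ∏ k : J, I0 (c k) + 3 * δ0 / 4 < Mf (fun k : J => c k) (fun k : J => γ k) by linarith)
    filter_upwards [this] with V hV using hV.le
  filter_upwards [h5, eventually_gt_atTop 0] with V hV hVp
  obtain ⟨h6, _⟩ := mn_sandwich (γ := γ) hc0 hs J hVp
  have h7 := mul_le_mul_of_nonneg_left hV (Real.exp_pos (-tl c J)).le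
  linarith

end Pool.Agent.E8helper14.LI
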