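import Pool.Agent.W263.BSD.Lap

/-! # Partial fraction series -/

set_option autoImplicit false

namespace Pool.Agent.E8helper14.LI

open Filter Topology MeasureTheory Set

/-- partial fraction series -/
noncomputable def PW (D : ℂ → ℂ) (z : ℂ) : ℂ := ∑' w : ℂ, D w / (z - w)

/-- absolutely summable weights with locally finite support -/
structure PF (D : ℂ → ℂ) : Prop where
  sum : Summable (fun w => ‖D w‖)
  fin : ∀ R : ℝ, {w | D w ≠ 0 ∧ ‖w‖ ≤ R}.Finite

lemma PF.iso {D : ℂ → ℂ} (h : PF D) (z0 : ℂ) :
    ∃ r > 0, ∀ w, D w ≠ 0 → w ≠ z0 → r ≤ ‖w - z0‖ := by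
  have h1 : ({w | D w ≠ 0 ∧ ‖w‖ ≤ ‖z0‖ + 1} \ {z0}).Finite := (h.fin _).subset sdiff_subset
  have h2 : ({w | D w ≠ 0 ∧ ‖w‖ ≤ ‖z0‖ + 1} \ {z0})ᶜ ∈ 𝓝 z0 :=
    h1.isClosed.isOpen_compl.mem_nhds (by simp)
  obtain ⟨r, hr, hr2⟩ := Metric.mem_nhds_iff.1 h2
  refine ⟨min r 1, by positivity, fun w hw hne => ?_⟩
  by_contra hlt
  push Not at hlt
  have h3 : w ∈ Metric.ball z0 r := by
    rw [Metric.mem_ball, dist_eq_norm]
    exact lt_of_lt_of_le hlt (min_le_left _ _)
  refine hr2 h3 ⟨⟨hw, ?_⟩, by simpa using hne⟩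
  have h4 : ‖w - z0‖ < 1 := lt_of_lt_of_le hlt (min_le_right _ _)
  have h5 := norm_sub_norm_le w z0
  linarith

lemma term_le {D : ℂ → ℂ} {r : ℝ} (hr : 0 < r) {z0 z w : ℂ} (hw : D w ≠ 0 → w ≠ z0 → r ≤ ‖w - z0‖)
    (hz : ‖z - z0‖ < r / 2) (hne : w ≠ z0) : ‖D w / (z - w)‖ ≤ ‖D w‖ * (2 / r) := by
  by_cases h0 : D w = 0
  · simp [h0]
  · have h1 := hw h0 hne
    have h2 : r / 2 ≤ ‖z - w‖ := by
      have h3 : ‖w - z0‖ ≤ ‖z - w‖ + ‖z - z0‖ := by
        have := norm_sub_le (z - z0) (z - w)
        rw [show z - z0 - (z - w) = w - z0 by ring] at this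
        linarith
      linarith
    have h4 : 0 < ‖z - w‖ := lt_of_lt_of_le (by positivity) h2
    rw [norm_div, div_eq_mul_inv]
    refine mul_le_mul_of_nonneg_left ?_ (norm_nonneg _)
    rw [show 2 / r = (r / 2)⁻¹ by rw [inv_div]]
    exact inv_anti₀ (by positivity) h2

open Classical in
/-- the local structure -/
lemma PF.loc {D : ℂ → ℂ} (h : PF D) (z0 : ℂ) :
    ∃ g : ℂ → ℂ, AnalyticAt ℂ g z0 ∧ ∀ᶠ z in 𝓝 z0, PW D z = D z0 / (z - z0) + g z := by
  obtain ⟨r, hr, hiso⟩ := h.iso z0
  have hball : Metric.ball z0 (r / 2) ∈ 𝓝 z0 := Metric.ball_mem_nhds _ (by positivity)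
  set F : ℂ → ℂ → ℂ := fun w z => if w = z0 then 0 else D w / (z - w) with hF
  have hFle : ∀ (w z : ℂ), z ∈ Metric.ball z0 (r / 2) → ‖F w z‖ ≤ ‖D w‖ * (2 / r) := by
    intro w z hz
    rw [Metric.mem_ball, dist_eq_norm] at hz
    simp only [hF]
    split_ifs with h1
    · rw [norm_zero]; positivity
    · exact term_le hr (hiso w) hz h1
  refine ⟨fun z => ∑' w, F w z, ?_, ?_⟩
  · refine DifferentiableOn.analyticAt ?_ hball
    refine Complex.differentiableOn_tsum_of_summable_norm (h.sum.mul_right (2 / r)) (fun w => ?_)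
      Metric.isOpen_ball hFle
    intro z hz
    simp only [hF]
    split_ifs with h1
    · exact differentiableWithinAt_const _
    · by_cases h0 : D w = 0
      · simp only [h0, zero_div]
        exact differentiableWithinAt_const _
      · have h2 := hiso w h0 h1
        have h3 : z - w ≠ 0 := by
          intro h4
          rw [Metric.mem_ball, dist_eq_norm] at hz
          rw [← sub_eq_zero.1 h4] at h2
          linarith
        have h5 : DifferentiableAt ℂ (fun z => D w / (z - w)) z :=
          DifferentiableAt.fun_div (by fun_prop) (by fun_prop) h3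
        exact h5.differentiableWithinAt
  · filter_upwards [hball] with z hz
    have hs : Summable (fun w => D w / (z - w)) := by
      have h1 : Summable (fun w => F w z) :=
        Summable.of_norm_bounded (h.sum.mul_right (2 / r)) fun w => hFle w z hz
      have h2 : (fun w => D w / (z - w)) = Function.update (fun w => F w z) z0 (D z0 / (z - z0)) := by
        funext w
        by_cases hw : w = z0
        · subst hw; simp
        · rw [Function.update_of_ne hw]
          simp only [hF, if_neg hw]
      rw [h2]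
      exact h1.update z0 _
    unfold PW
    rw [hs.tsum_eq_add_tsum_ite z0]

/-- the Laplace transform of the exponential sum -/
lemma lap_Z {D : ℂ → ℂ} (h : PF D) (hre : ∀ w, D w ≠ 0 → w.re ≤ 1 / 2) {z : ℂ} (hz : 1 / 2 < z.re) :
    IntegrableOn (fun v : ℝ => (∑' w : ℂ, D w * Complex.exp (w * v)) * Complex.exp (-(z * v))) (Ioi 0) ∧
    ∫ v in Ioi (0 : ℝ), (∑' w : ℂ, D w * Complex.exp (w * v)) * Complex.exp (-(z * v)) = PW D z := by
  set F : ℂ → ℝ → ℂ := fun w v => D w * Complex.exp ((w - z) * v) with hF
  have hb : ∀ w, ∀ v : ℝ, 0 < v → ‖F w v‖ ≤ ‖D w‖ * Real.exp ((1 / 2 - z.re) * v) := by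
    intro w v hv
    by_cases h0 : D w = 0
    · simp [hF, h0]
    simp only [hF]
    rw [norm_mul, Complex.norm_exp]
    refine mul_le_mul_of_nonneg_left (Real.exp_le_exp.2 ?_) (norm_nonneg _)
    rw [Complex.mul_re, Complex.ofReal_re, Complex.ofReal_im, mul_zero, sub_zero, Complex.sub_re]
    exact mul_le_mul_of_nonneg_right (by linarith [hre w h0]) hv.le
  have hE : IntegrableOn (fun v : ℝ => Real.exp ((1 / 2 - z.re) * v)) (Ioi 0) :=
    integrableOn_exp_mul_Ioi (by linarith) 0
  have hFc : ∀ w, Continuous (F w) := by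
    intro w
    simp only [hF]
    fun_prop
  have hint : ∀ w, IntegrableOn (F w) (Ioi 0) := by
    intro w
    refine Integrable.mono' (hE.const_mul ‖D w‖) (hFc w).aestronglyMeasurable ?_
    exact (ae_restrict_iff' measurableSet_Ioi).mpr (Eventually.of_forall fun v hv => hb w v hv)
  have hsn : Summable (fun w => ∫ v in Ioi (0 : ℝ), ‖F w v‖) := by
    refine Summable.of_nonneg_of_le (fun w => integral_nonneg fun v => norm_nonneg _) (fun w => ?_)
      (h.sum.mul_right (∫ v in Ioi (0 : ℝ), Real.exp ((1 / 2 - z.re) * v)))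
    rw [← integral_const_mul]
    refine setIntegral_mono_on (hint w).norm (hE.const_mul _) measurableSet_Ioi fun v hv => hb w v hv
  have hpt : ∀ v : ℝ, (∑' w : ℂ, D w * Complex.exp (w * v)) * Complex.exp (-(z * v)) = ∑' w, F w v := by
    intro v
    rw [← tsum_mul_right]
    refine tsum_congr fun w => ?_
    simp only [hF]
    rw [mul_assoc, ← Complex.exp_add]
    congr 2
    ring
  have hterm : ∀ w, ∫ v in Ioi (0 : ℝ), F w v = D w / (z - w) := by
    intro w
    by_cases h0 : D w = 0
    · simp [hF, h0]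
    simp only [hF]
    rw [integral_const_mul, integral_exp_mul_complex_Ioi (by
      rw [Complex.sub_re]; linarith [hre w h0])]
    have h1 : w - z ≠ 0 := by
      intro h2
      have := congrArg Complex.re h2
      rw [Complex.sub_re, Complex.zero_re] at this
      linarith [hre w h0]
    have h2 : z - w ≠ 0 := by
      intro h3
      exact h1 (by rw [← neg_sub, h3, neg_zero])
    simp only [Complex.ofReal_zero, mul_zero, Complex.exp_zero]
    field_simp
    ring
  have h1 : HasSum (fun w => ∫ v in Ioi (0 : ℝ), F w v) (∫ v in Ioi (0 : ℝ), ∑' w, F w v) := by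
    have hcs : (Function.support D).Countable := h.sum.of_norm.countable_support
    have : Countable (Function.support D) := hcs
    have h5 := hasSum_integral_of_summable_integral_norm (μ := volume.restrict (Ioi (0 : ℝ)))
      (F := fun w : Function.support D => F w) (fun w => hint w)
      (hsn.subtype (Function.support D))
    have e1 : ∀ v : ℝ, ∑' w : Function.support D, F w v = ∑' w, F w v := by
      intro v
      refine tsum_subtype_eq_of_support_subset (f := fun w => F w v) fun w hw => ?_
      rw [Function.mem_support] at hw ⊢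
      intro h0
      exact hw (by simp [hF, h0])
    simp_rw [e1] at h5
    rw [← hasSum_subtype_iff_of_support_subset (s := Function.support D)]
    · exact h5
    · intro w hw
      rw [Function.mem_support] at hw ⊢
      intro h0
      exact hw (by simp [hF, h0])
  have hmeas : ∀ v : ℝ, 0 < v → Summable (fun w => F w v) := fun v hv =>
    Summable.of_norm_bounded (h.sum.mul_right _) fun w => hb w v hv
  constructor
  · simp_rw [hpt]
    have hI : IntegrableOn (fun v => ∑' w, F w v) (Ioi 0) := by
      refine Integrable.mono' (g := fun v => (∑' w, ‖D w‖) * Real.exp ((1 / 2 - z.re) * v)) (hE.const_mul _) ?_ ?_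
      · have hco : ContinuousOn (fun v : ℝ => ∑' w, F w v) (Ioi 0) := by
          refine continuousOn_tsum (fun w => (hFc w).continuousOn) h.sum fun w v hv => ?_
          refine (hb w v hv).trans ?_
          calc ‖D w‖ * Real.exp ((1 / 2 - z.re) * v) ≤ ‖D w‖ * 1 := by
                refine mul_le_mul_of_nonneg_left ?_ (norm_nonneg _)
                rw [Real.exp_le_one_iff]
                have hv' : (0 : ℝ) < v := hv
                nlinarith
            _ = ‖D w‖ := mul_one _
        exact hco.aestronglyMeasurable measurableSet_Ioi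
      · refine (ae_restrict_iff' measurableSet_Ioi).mpr (Eventually.of_forall fun v hv => ?_)
        have := tsum_of_norm_bounded (h.sum.mul_right (Real.exp ((1 / 2 - z.re) * v))).hasSum
          (fun w => hb w v hv)
        rwa [tsum_mul_right] at this
    exact hI
  · simp_rw [hpt]
    rw [← h1.tsum_eq]
    unfold PW
    exact tsum_congr hterm

end Pool.Agent.E8helper14.LI
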