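import Pool.Agent.E8helper14.LI.Ef
import Pool.Agent.E8helper14.LI.Bad

/-! # Packages of zeros with a Gaussian explicit formula -/

set_option autoImplicit false

namespace Pool.Agent.E8helper14.LI

open MeasureTheory Set Filter Topology Complex
open scoped ComplexConjugate
open Pool.Agent.Y23.G

/-- zeros with multiplicities `m`, a pole of order `r` and prime power coefficients `b` -/
structure Pk (a : ℝ) (m : ℂ → ℕ) (r : ℕ) (b : ℕ → ℂ) : Prop where
  strip : ∀ s, m s ≠ 0 → 0 < s.re ∧ s.re < 1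
  refl : ∀ s, m (1 - conj s) = m s
  sum : ∀ v, Summable (fun s : ℂ => ‖(m s : ℂ) * hG a v (s - 1 / 2)‖)
  bb : ∃ C : ℝ, ∀ n, ‖b n‖ ≤ C * ArithmeticFunction.vonMangoldt n
  ef : ∃ R : ℝ → ℂ, ∃ C : ℝ, (∀ v, 0 ≤ v → ‖R v‖ ≤ C) ∧ Tendsto R atTop (𝓝 0) ∧
    ∀ v : ℝ, ∑' s : ℂ, (m s : ℂ) * hG a v (s - 1 / 2) =
      r * (Real.exp (a / 8 + v / 2) : ℂ) - KG a * (∑' n : ℕ, b n * (gs a (v - Real.log n) : ℂ)) + R v

variable {a : ℝ}

lemma pk_lfun (ha : 0 < a) (L : LFun) (m : ℂ → ℕ) (hm : ∀ s, mX (L := L) s = m s)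
    (hs : ∀ s, m s ≠ 0 → 0 < s.re ∧ s.re < 1) : Pk a m L.r (aL (L := L)) := by
  have hm' : mX (L := L) = m := funext hm
  refine ⟨hs, fun s => ?_, fun v => ?_, ⟨(L.m : ℝ), aL_norm⟩, ?_⟩
  · rw [← hm, ← hm, mX_refl]
  · have := m_summable (L := L) ha v
    rw [hm'] at this
    exact this
  · have := ef (L := L) ha
    rw [hm'] at this
    exact this

lemma Pk.change {m : ℂ → ℕ} {r : ℕ} {b b' : ℕ → ℂ} (ha : 0 < a) (h : Pk a m r b) {q : ℕ} (hq : 0 < q)
    (hb' : ∃ C : ℝ, ∀ n, ‖b' n‖ ≤ C * ArithmeticFunction.vonMangoldt n)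
    (hd : ∀ n, ‖b' n - b n‖ ≤ if n.Coprime q then 0 else ArithmeticFunction.vonMangoldt n * Real.exp (-(Real.log n / 2))) :
    Pk a m r b' := by
  refine ⟨h.strip, h.refl, h.sum, hb', ?_⟩
  obtain ⟨C1, hb1⟩ := h.bb
  obtain ⟨C2, hb2⟩ := hb'
  obtain ⟨R, C, hR1, hR2, hR3⟩ := h.ef
  set Q : ℝ → ℂ := fun v => ∑' n : ℕ, (b' n - b n) * (gs a (v - Real.log n) : ℂ) with hQ
  have hQb : ∀ v, ‖Q v‖ ≤ (Real.exp (a / 32) * Real.exp (-(v / 4))) * ∑' n, bw q n := by
    intro v
    rw [← tsum_mul_left]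
    refine tsum_of_norm_bounded ((bw_summable q hq).mul_left _).hasSum fun n => ?_
    rw [norm_mul, Complex.norm_real, Real.norm_of_nonneg (gs_nonneg _ _)]
    have h1 := hd n
    unfold bw
    split_ifs at h1 ⊢ with hc
    · have : ‖b' n - b n‖ = 0 := le_antisymm h1 (norm_nonneg _)
      rw [this, zero_mul, mul_zero]
    · have h2 := gs_decay ha v (Real.log n)
      have hL : 0 ≤ ArithmeticFunction.vonMangoldt n := ArithmeticFunction.vonMangoldt_nonneg
      calc ‖b' n - b n‖ * gs a (v - Real.log n)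
          ≤ (ArithmeticFunction.vonMangoldt n * Real.exp (-(Real.log n / 2))) * gs a (v - Real.log n) :=
            mul_le_mul_of_nonneg_right h1 (gs_nonneg _ _)
        _ = ArithmeticFunction.vonMangoldt n * (gs a (v - Real.log n) * Real.exp (-(Real.log n / 2))) := by ring
        _ ≤ ArithmeticFunction.vonMangoldt n * (Real.exp (a / 32) * Real.exp (-(v / 4)) * Real.exp (-(Real.log n / 4))) :=
            mul_le_mul_of_nonneg_left h2 hL
        _ = _ := by ring
  have hBn : 0 ≤ ∑' n, bw q n := tsum_nonneg (bw_nonneg q)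
  refine ⟨fun v => R v + KG a * Q v, C + KG a * (Real.exp (a / 32) * ∑' n, bw q n), fun v hv => ?_, ?_, fun v => ?_⟩
  · refine (norm_add_le _ _).trans (add_le_add (hR1 v hv) ?_)
    rw [norm_mul, Complex.norm_real, Real.norm_of_nonneg (KG_pos ha).le]
    refine mul_le_mul_of_nonneg_left ((hQb v).trans ?_) (KG_pos ha).le
    refine mul_le_mul_of_nonneg_right ?_ hBn
    calc Real.exp (a / 32) * Real.exp (-(v / 4)) ≤ Real.exp (a / 32) * 1 := by
          refine mul_le_mul_of_nonneg_left ?_ (Real.exp_pos _).le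
          rw [Real.exp_le_one_iff]
          linarith
      _ = _ := mul_one _
  · have h1 : Tendsto Q atTop (𝓝 0) := by
      have h2 : Tendsto (fun v : ℝ => (Real.exp (a / 32) * Real.exp (-(v / 4))) * ∑' n, bw q n) atTop (𝓝 0) := by
        have h3 : Tendsto (fun v : ℝ => Real.exp (-(v / 4))) atTop (𝓝 0) :=
          Real.tendsto_exp_neg_atTop_nhds_zero.comp (tendsto_id.atTop_div_const (by norm_num))
        have h4 := (h3.const_mul (Real.exp (a / 32))).mul_const (∑' n, bw q n)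
        simpa using h4
      exact squeeze_zero_norm hQb h2
    have := hR2.add (h1.const_mul (KG a : ℂ))
    simpa using this
  · have e : Q v = (∑' n : ℕ, b' n * (gs a (v - Real.log n) : ℂ)) - ∑' n : ℕ, b n * (gs a (v - Real.log n) : ℂ) := by
      simp only [hQ, sub_mul]
      exact Summable.tsum_sub (psum_summable ha hb2 v).of_norm (psum_summable ha hb1 v).of_norm
    show _ = (r : ℂ) * (Real.exp (a / 8 + v / 2) : ℂ) - KG a * (∑' n : ℕ, b' n * (gs a (v - Real.log n) : ℂ)) +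
      (R v + KG a * Q v)
    rw [hR3 v, e]
    ring

lemma Pk.zero : Pk a (fun _ => 0) 0 (fun _ => 0) := by
  refine ⟨fun s hs => absurd rfl hs, fun s => rfl, fun v => ?_, ⟨0, fun n => by simp⟩, ⟨fun _ => 0, 0, fun v _ => by simp,
    tendsto_const_nhds, fun v => by simp⟩⟩
  simp only [Nat.cast_zero, zero_mul, norm_zero]
  exact summable_zero

lemma Pk.add (ha : 0 < a) {m m' : ℂ → ℕ} {r r' : ℕ} {b b' : ℕ → ℂ} (h : Pk a m r b) (h' : Pk a m' r' b') :
    Pk a (fun s => m s + m' s) (r + r') (fun n => b n + b' n) := by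
  obtain ⟨C1, hb1⟩ := h.bb
  obtain ⟨C2, hb2⟩ := h'.bb
  obtain ⟨R, C, hR1, hR2, hR3⟩ := h.ef
  obtain ⟨R', C', hR1', hR2', hR3'⟩ := h'.ef
  have e : ∀ (v : ℝ) (s : ℂ), ((m s + m' s : ℕ) : ℂ) * hG a v (s - 1 / 2) =
      (m s : ℂ) * hG a v (s - 1 / 2) + (m' s : ℂ) * hG a v (s - 1 / 2) := fun v s => by
    push_cast; ring
  refine ⟨fun s hs => ?_, fun s => ?_, fun v => ?_, ⟨C1 + C2, fun n => ?_⟩,
    ⟨fun v => R v + R' v, C + C', fun v hv => ?_, ?_, fun v => ?_⟩⟩
  · by_cases h0 : m s = 0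
    · exact h'.strip s (fun h1 => hs (by simp [h0, h1]))
    · exact h.strip s h0
  · rw [h.refl, h'.refl]
  · refine Summable.of_nonneg_of_le (fun _ => norm_nonneg _) (fun s => ?_) ((h.sum v).add (h'.sum v))
    rw [e]
    exact norm_add_le _ _
  · refine (norm_add_le _ _).trans ((add_le_add (hb1 n) (hb2 n)).trans (le_of_eq (by ring)))
  · exact (norm_add_le _ _).trans (add_le_add (hR1 v hv) (hR1' v hv))
  · have := hR2.add hR2'
    simpa using this
  · simp_rw [e]
    rw [Summable.tsum_add (h.sum v).of_norm (h'.sum v).of_norm, hR3, hR3']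
    have e2 : ∑' n : ℕ, (b n + b' n) * (gs a (v - Real.log n) : ℂ) =
        (∑' n : ℕ, b n * (gs a (v - Real.log n) : ℂ)) + ∑' n : ℕ, b' n * (gs a (v - Real.log n) : ℂ) := by
      simp only [add_mul]
      exact Summable.tsum_add (psum_summable ha hb1 v).of_norm (psum_summable ha hb2 v).of_norm
    rw [e2]
    push_cast
    ring

lemma Pk.sums (ha : 0 < a) {X : Type*} (T : Finset X) {m : X → ℂ → ℕ} {r : X → ℕ} {b : X → ℕ → ℂ}
    (h : ∀ x, Pk a (m x) (r x) (b x)) :
    Pk a (fun s => ∑ x ∈ T, m x s) (∑ x ∈ T, r x) (fun n => ∑ x ∈ T, b x n) := by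
  classical
  induction T using Finset.induction_on with
  | empty => simpa using Pk.zero
  | insert x T hx ih =>
    simp only [Finset.sum_insert hx]
    exact (h x).add ha ih

end Pool.Agent.E8helper14.LI
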