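import Mathlib

/-! # Finite products of absolutely convergent series -/

set_option autoImplicit false

namespace Pool.Agent.E8helper14.LI

open Filter Topology MeasureTheory

variable {κ : Type*} [Fintype κ]

lemma pi_summable {f : κ → ℕ → ℝ} (h0 : ∀ k n, 0 ≤ f k n) (hf : ∀ k, Summable (f k)) :
    Summable (fun x : κ → ℕ => ∏ k, f k (x k)) := by
  classical
  refine summable_of_sum_le (c := ∏ k, ∑' n, f k n) (fun x => Finset.prod_nonneg fun k _ => h0 k _)
    fun A => ?_
  obtain ⟨N, hN⟩ : ∃ N : ℕ, ∀ x ∈ A, ∀ k, x k < N := by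
    refine ⟨A.sup (fun x => ∑ k, x k) + 1, fun x hx k => ?_⟩
    have h1 : x k ≤ ∑ k, x k := Finset.single_le_sum (fun i _ => Nat.zero_le _) (Finset.mem_univ k)
    have h2 : ∑ k, x k ≤ A.sup (fun x => ∑ k, x k) := Finset.le_sup (f := fun x : κ → ℕ => ∑ k, x k) hx
    omega
  have hsub : A ⊆ Fintype.piFinset (fun _ : κ => Finset.range N) := by
    intro x hx
    rw [Fintype.mem_piFinset]
    intro k
    exact Finset.mem_range.2 (hN x hx k)
  calc ∑ x ∈ A, ∏ k, f k (x k) ≤ ∑ x ∈ Fintype.piFinset (fun _ : κ => Finset.range N), ∏ k, f k (x k) :=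
        Finset.sum_le_sum_of_subset_of_nonneg hsub fun x _ _ => Finset.prod_nonneg fun k _ => h0 k _
    _ = ∏ k, ∑ n ∈ Finset.range N, f k n := by
        rw [Finset.prod_univ_sum]
    _ ≤ ∏ k, ∑' n, f k n :=
        Finset.prod_le_prod (fun k _ => Finset.sum_nonneg fun n _ => h0 k n) fun k _ =>
          (hf k).sum_le_tsum _ fun n _ => h0 k n

lemma pi_tendsto [DecidableEq κ] : Tendsto (fun N : ℕ => Fintype.piFinset (fun _ : κ => Finset.range N)) atTop atTop := by
  classical
  refine tendsto_atTop_finset_of_monotone ?_ ?_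
  · intro a b hab
    refine Fintype.piFinset_subset _ _ fun _ => ?_
    exact Finset.range_mono hab
  · intro x
    refine ⟨∑ k, x k + 1, ?_⟩
    rw [Fintype.mem_piFinset]
    intro k
    have h1 : x k ≤ ∑ k, x k := Finset.single_le_sum (fun i _ => Nat.zero_le _) (Finset.mem_univ k)
    rw [Finset.mem_range]
    omega

lemma pi_tsum {𝕜 : Type*} [RCLike 𝕜] {f : κ → ℕ → 𝕜} (hf : ∀ k, Summable (fun n => ‖f k n‖)) :
    Summable (fun x : κ → ℕ => ‖∏ k, f k (x k)‖) ∧
    HasSum (fun x : κ → ℕ => ∏ k, f k (x k)) (∏ k, ∑' n, f k n) := by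
  classical
  have h1 : Summable (fun x : κ → ℕ => ‖∏ k, f k (x k)‖) := by
    have := pi_summable (f := fun k n => ‖f k n‖) (fun k n => norm_nonneg _) hf
    refine this.congr fun x => ?_
    rw [norm_prod]
  refine ⟨h1, ?_⟩
  have h2 := h1.of_norm.hasSum
  have h3 := h2.comp (pi_tendsto (κ := κ))
  have h4 : Tendsto (fun N : ℕ => ∏ k, ∑ n ∈ Finset.range N, f k n) atTop (𝓝 (∏ k, ∑' n, f k n)) :=
    tendsto_finsetProd _ fun k _ => (hf k).of_norm.hasSum.tendsto_sum_nat
  have h5 : (fun N : ℕ => ∏ k, ∑ n ∈ Finset.range N, f k n) =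
      (fun s : Finset (κ → ℕ) => ∑ x ∈ s, ∏ k, f k (x k)) ∘
        (fun N : ℕ => Fintype.piFinset (fun _ : κ => Finset.range N)) := by
    funext N
    simp only [Function.comp]
    rw [Finset.prod_univ_sum]
  rw [h5] at h4
  have h6 := tendsto_nhds_unique h3 h4
  rwa [h6] at h2

end Pool.Agent.E8helper14.LI
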