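import Pool.Agent.E8helper14.LI.Dir
import Pool.Agent.E8helper14.LI.Idx
import Pool.Agent.E8helper14.LI.Lan
import Pool.Agent.E8helper14.LI.Mean3

/-! # The product of all the L-functions modulo `q` -/

set_option autoImplicit false
set_option linter.unusedSectionVars false

namespace Pool.Agent.E8helper14.LI

open MeasureTheory Set Filter Topology Complex
open scoped ComplexConjugate
open Pool.Agent.TH839.NA (pw)

variable {a : ℝ} {q : ℕ} [NeZero q]

lemma LF_eq' (χ : DirichletCharacter ℂ q) : H385.LF q χ = DirichletCharacter.LFunction χ := by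
  rw [H385.LF, dif_neg (NeZero.ne q)]

variable (q) in
/-- total multiplicity -/
noncomputable def MT (s : ℂ) : ℕ := ∑ χ : DirichletCharacter ℂ q, mD q χ s

open Classical in
variable (q) in
/-- the normalised error term of the primes `≡ 1` modulo `q` -/
noncomputable def EE (a v : ℝ) : ℝ :=
  Real.exp (a / 8 + v / 2) - q.totient * KG a * ∑' n : ℕ, if (n : ZMod q) = 1 then
    ArithmeticFunction.vonMangoldt n * (n : ℝ) ^ (-(1 / 2) : ℝ) * gs a (v - Real.log n) else 0

lemma pk_tot (ha : 0 < a) :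
    Pk a (MT q) 1 (fun n => ∑ χ : DirichletCharacter ℂ q, bD q χ n) := by
  classical
  have h := Pk.sums ha (Finset.univ : Finset (DirichletCharacter ℂ q)) (m := mD q)
    (r := fun χ => if χ = 1 then 1 else 0) (b := bD q) (fun χ => pk_all ha χ)
  rw [Finset.sum_ite_eq' Finset.univ (1 : DirichletCharacter ℂ q) (fun _ => 1),
    if_pos (Finset.mem_univ _)] at h
  exact h

open Classical in
lemma b_sum (n : ℕ) : ∑ χ : DirichletCharacter ℂ q, bD q χ n =
    ((if (n : ZMod q) = 1 then (q.totient : ℝ) * (ArithmeticFunction.vonMangoldt n * (n : ℝ) ^ (-(1 / 2) : ℝ)) else 0 : ℝ) : ℂ) := by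
  unfold bD pw
  rw [← Finset.mul_sum, ← Finset.sum_mul, DirichletCharacter.sum_characters_eq]
  split_ifs with h
  · push_cast
    ring
  · simp

lemma b_real (v : ℝ) : ∑' n : ℕ, (∑ χ : DirichletCharacter ℂ q, bD q χ n) * (gs a (v - Real.log n) : ℂ) =
    ((q.totient * ∑' n : ℕ, (open Classical in if (n : ZMod q) = 1 then
    ArithmeticFunction.vonMangoldt n * (n : ℝ) ^ (-(1 / 2) : ℝ) * gs a (v - Real.log n) else 0) : ℝ) : ℂ) := by
  classical
  rw [← tsum_mul_left, Complex.ofReal_tsum]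
  refine tsum_congr fun n => ?_
  rw [b_sum, ← Complex.ofReal_mul]
  congr 1
  split_ifs
  · ring
  · ring

/-- **the explicit formula for all the characters** -/
theorem tot_ef (ha : 0 < a) : ∃ R : ℝ → ℂ, ∃ C : ℝ, (∀ v, 0 ≤ v → ‖R v‖ ≤ C) ∧ Tendsto R atTop (𝓝 0) ∧
    ∀ v : ℝ, ∑' s : ℂ, (MT q s : ℂ) * hG a v (s - 1 / 2) = (EE q a v : ℂ) + R v := by
  obtain ⟨R, C, h1, h2, h3⟩ := (pk_tot (q := q) ha).ef
  refine ⟨R, C, h1, h2, fun v => ?_⟩
  rw [h3, b_real]
  unfold EE
  push_cast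
  ring

lemma EE_cont (ha : 0 < a) : Continuous (EE q a) := by
  obtain ⟨C, hC⟩ := (pk_tot (q := q) ha).bb
  have h := psum_cont ha hC
  have h1 : Continuous (fun v : ℝ => (∑' n : ℕ, (∑ χ : DirichletCharacter ℂ q, bD q χ n) * (gs a (v - Real.log n) : ℂ)).re) :=
    Complex.continuous_re.comp h
  have h2 : (fun v : ℝ => (∑' n : ℕ, (∑ χ : DirichletCharacter ℂ q, bD q χ n) * (gs a (v - Real.log n) : ℂ)).re) =
      fun v : ℝ => (q.totient * ∑' n : ℕ, (open Classical in if (n : ZMod q) = 1 then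
    ArithmeticFunction.vonMangoldt n * (n : ℝ) ^ (-(1 / 2) : ℝ) * gs a (v - Real.log n) else 0) : ℝ) := by
    funext v
    rw [b_real, Complex.ofReal_re]
  rw [h2] at h1
  have h3 : EE q a = fun v : ℝ => Real.exp (a / 8 + v / 2) - KG a * (q.totient * ∑' n : ℕ, (open Classical in if (n : ZMod q) = 1 then
    ArithmeticFunction.vonMangoldt n * (n : ℝ) ^ (-(1 / 2) : ℝ) * gs a (v - Real.log n) else 0)) := by
    funext v
    unfold EE
    ring
  rw [h3]
  exact (by fun_prop : Continuous fun v : ℝ => Real.exp (a / 8 + v / 2)).sub (continuous_const.mul h1)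

variable (q) in
/-- the weights for Landau's theorem -/
noncomputable def DD (a : ℝ) (w : ℂ) : ℂ := (MT q (1 / 2 + w) : ℂ) * cexp ((a / 2 : ℝ) * w ^ 2)

lemma DD_exp (v : ℝ) (w : ℂ) : DD q a w * cexp (w * v) = (MT q (1 / 2 + w) : ℂ) * hG a v (1 / 2 + w - 1 / 2) := by
  unfold DD hG
  rw [add_sub_cancel_left, mul_assoc, ← Complex.exp_add, mul_comm w (v : ℂ)]

lemma ZZ_eq (v : ℝ) : ZZ (DD q a) v = ∑' s : ℂ, (MT q s : ℂ) * hG a v (s - 1 / 2) := by
  unfold ZZ
  simp_rw [DD_exp]
  exact (Equiv.addLeft (1 / 2 : ℂ)).tsum_eq (fun s : ℂ => (MT q s : ℂ) * hG a v (s - 1 / 2))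

lemma DD_ne {w : ℂ} : DD q a w ≠ 0 ↔ MT q (1 / 2 + w) ≠ 0 := by
  unfold DD
  simp [Complex.exp_ne_zero]

lemma DD_norm (ha : 0 < a) {w : ℂ} (h : DD q a w ≠ 0) : Real.exp (-(a / 2) * ‖w‖ ^ 2) ≤ ‖DD q a w‖ := by
  have h1 := DD_ne.1 h
  unfold DD
  rw [norm_mul, Complex.norm_natCast, Complex.norm_exp]
  have h2 : (1 : ℝ) ≤ (MT q (1 / 2 + w) : ℝ) := by exact_mod_cast Nat.one_le_iff_ne_zero.2 h1
  have h3 : Real.exp (-(a / 2) * ‖w‖ ^ 2) ≤ Real.exp ((((a / 2 : ℝ) : ℂ) * w ^ 2).re) := by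
    refine Real.exp_le_exp.2 ?_
    rw [Complex.re_ofReal_mul]
    have h4 : -‖w‖ ^ 2 ≤ (w ^ 2).re := by
      have := (abs_le.1 (Complex.abs_re_le_norm (w ^ 2))).1
      rwa [norm_pow] at this
    nlinarith
  have h5 := Real.exp_pos ((((a / 2 : ℝ) : ℂ) * w ^ 2).re)
  nlinarith

lemma DD_pf (ha : 0 < a) : PF (DD q a) := by
  have hs : Summable (fun w => ‖DD q a w‖) := by
    have h := (pk_tot (q := q) ha).sum 0
    rw [← (Equiv.addLeft (1 / 2 : ℂ)).summable_iff] at h
    refine h.congr fun w => ?_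
    simp only [Function.comp, Equiv.coe_addLeft]
    rw [← DD_exp]
    simp
  refine ⟨hs, fun R => ?_⟩
  have h1 := hs.tendsto_cofinite_zero
  have h2 := h1.eventually_lt_const (Real.exp_pos (-(a / 2) * R ^ 2))
  rw [Filter.eventually_cofinite] at h2
  refine h2.subset fun w hw => ?_
  show ¬ ‖DD q a w‖ < Real.exp (-(a / 2) * R ^ 2)
  rw [not_lt]
  refine le_trans (Real.exp_le_exp.2 ?_) (DD_norm ha hw.1)
  have h3 : ‖w‖ ^ 2 ≤ R ^ 2 := pow_le_pow_left₀ (norm_nonneg _) hw.2 2
  nlinarith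

lemma MT_strip {s : ℂ} (h : MT q s ≠ 0) : 0 < s.re ∧ s.re < 1 := (pk_tot (q := q) (a := 1) one_pos).strip s h

/-- the Laplace integral of a function whose mean is bounded -/
lemma LInt_of_mean {κ : ℝ → ℝ} (hκ : Continuous κ) (h0 : ∀ v, 0 ≤ κ v) {C V0 : ℝ}
    (h : ∀ V, V0 ≤ V → mn κ V ≤ C) : ∀ w > 0, Pool.Agent.W263.BSD.LInt κ w := by
  intro w hw
  unfold Pool.Agent.W263.BSD.LInt
  set V1 : ℝ := max V0 1 with hV1
  set K : ℝ := ∫ v in (0 : ℝ)..V1, κ v with hK
  have hint : ∀ x y : ℝ, IntervalIntegrable κ volume x y := fun x y => hκ.intervalIntegrable x y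
  have hKn : 0 ≤ K := intervalIntegral.integral_nonneg (by positivity) fun v _ => h0 v
  have hb : ∀ V : ℝ, 0 ≤ V → ∫ v in (0 : ℝ)..V, κ v ≤ K + |C| * V := by
    intro V hV
    rcases le_total V V1 with h1 | h1
    · have h2 : ∫ v in (0 : ℝ)..V, κ v ≤ K := by
        rw [hK, ← intervalIntegral.integral_add_adjacent_intervals (hint 0 V) (hint V V1)]
        have : 0 ≤ ∫ v in V..V1, κ v := intervalIntegral.integral_nonneg h1 fun v _ => h0 v
        linarith
      have : 0 ≤ |C| * V := by positivity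
      linarith
    · have hVp : 0 < V := lt_of_lt_of_le (lt_of_lt_of_le one_pos (le_max_right V0 1)) h1
      have h2 := h V ((le_max_left _ _).trans h1)
      unfold mn at h2
      rw [inv_mul_le_iff₀ hVp] at h2
      have h3 : V * C ≤ |C| * V := by
        rw [mul_comm]
        exact mul_le_mul_of_nonneg_right (le_abs_self C) hV
      linarith
  have hcont : Continuous (fun u : ℝ => κ u * Real.exp (-(w * u))) := by fun_prop
  have hg : Summable (fun n : ℕ => (K + |C| * (n + 1)) * Real.exp (-w) ^ n) := by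
    have hr : ‖Real.exp (-w)‖ < 1 := by
      rw [Real.norm_of_nonneg (Real.exp_pos _).le, Real.exp_lt_one_iff]; linarith
    have s1 : Summable (fun n : ℕ => Real.exp (-w) ^ n) := summable_geometric_of_norm_lt_one hr
    have s2 : Summable (fun n : ℕ => (n : ℝ) * Real.exp (-w) ^ n) := by
      have := summable_pow_mul_geometric_of_norm_lt_one 1 hr
      simpa using this
    refine ((s1.mul_left (K + |C|)).add (s2.mul_left |C|)).congr fun n => ?_
    ring
  have hN : ∀ N : ℕ, ∫ u in (0 : ℝ)..N, κ u * Real.exp (-(w * u)) ≤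
      ∑' n : ℕ, (K + |C| * (n + 1)) * Real.exp (-w) ^ n := by
    intro N
    have h1 : ∫ u in (0 : ℝ)..N, κ u * Real.exp (-(w * u)) =
        ∑ n ∈ Finset.range N, ∫ u in (n : ℝ)..((n + 1 : ℕ) : ℝ), κ u * Real.exp (-(w * u)) := by
      have := intervalIntegral.sum_integral_adjacent_intervals (μ := volume)
        (f := fun u : ℝ => κ u * Real.exp (-(w * u))) (a := fun n : ℕ => (n : ℝ)) (n := N)
        (fun k _ => hcont.intervalIntegrable _ _)
      rw [this]
      simp
    rw [h1]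
    refine le_trans (Finset.sum_le_sum fun n _ => ?_) (hg.sum_le_tsum _ fun n _ => by positivity)
    have h2 : ∫ u in (n : ℝ)..((n + 1 : ℕ) : ℝ), κ u * Real.exp (-(w * u)) ≤
        ∫ u in (n : ℝ)..((n + 1 : ℕ) : ℝ), κ u * Real.exp (-(w * n)) := by
      refine intervalIntegral.integral_mono_on (by push_cast; linarith) (hcont.intervalIntegrable _ _)
        ((hκ.mul continuous_const).intervalIntegrable _ _) fun u hu => ?_
      refine mul_le_mul_of_nonneg_left (Real.exp_le_exp.2 ?_) (h0 u)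
      have := mul_le_mul_of_nonneg_left hu.1 hw.le
      linarith
    rw [intervalIntegral.integral_mul_const] at h2
    have h3 : ∫ u in (n : ℝ)..((n + 1 : ℕ) : ℝ), κ u ≤ K + |C| * (n + 1) := by
      have h4 := hb ((n + 1 : ℕ) : ℝ) (by positivity)
      have h5 := intervalIntegral.integral_add_adjacent_intervals (hint 0 (n : ℝ)) (hint (n : ℝ) ((n + 1 : ℕ) : ℝ))
      have h6 : 0 ≤ ∫ v in (0 : ℝ)..(n : ℝ), κ v := intervalIntegral.integral_nonneg (by positivity) fun v _ => h0 v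
      push_cast at h4 h5 ⊢
      linarith
    have h7 : Real.exp (-(w * n)) = Real.exp (-w) ^ n := by
      rw [← Real.exp_nat_mul]
      congr 1
      ring
    rw [h7] at h2
    exact h2.trans (mul_le_mul_of_nonneg_right h3 (by positivity))
  refine integrableOn_Ioi_of_intervalIntegral_norm_bounded
    (∑' n : ℕ, (K + |C| * (n + 1)) * Real.exp (-w) ^ n) 0 (b := fun n : ℕ => (n : ℝ)) (l := atTop)
    (fun n => hcont.integrableOn_Ioc) tendsto_natCast_atTop_atTop ?_
  refine Eventually.of_forall fun N => ?_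
  refine le_trans (le_of_eq ?_) (hN N)
  refine intervalIntegral.integral_congr fun u _ => ?_
  rw [Real.norm_of_nonneg (mul_nonneg (h0 u) (Real.exp_pos _).le)]

/-- **boundedness of the mean forces the zeros to the line** -/
theorem line_of_mean (ha : 0 < a) {C V0 : ℝ} (h : ∀ V, V0 ≤ V → mn (fun v => Real.exp (EE q a v)) V ≤ C) :
    ∀ s, MT q s ≠ 0 → s.re = 1 / 2 := by
  obtain ⟨R, B, hR1, hR2, hR3⟩ := tot_ef (q := q) ha
  have hEc := EE_cont (q := q) ha
  have L : LD (DD q a) (EE q a) (fun v => Real.exp (EE q a v)) B := by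
    refine ⟨DD_pf ha, fun w hw => ?_, fun x hx hx0 => ?_, hEc.measurable, (Real.continuous_exp.comp hEc).measurable,
      fun v hv => ?_, LInt_of_mean (Real.continuous_exp.comp hEc) (fun v => (Real.exp_pos _).le) h,
      fun v hv => ?_⟩
    · have h1 := (MT_strip (DD_ne.1 hw)).2
      simp at h1
      linarith
    · have h1 := DD_ne.1 hx
      have h2 : DD q a x = ((MT q (1 / 2 + x) * Real.exp (a / 2 * x ^ 2) : ℝ) : ℂ) := by
        unfold DD
        push_cast
        rfl
      rw [h2, Complex.ofReal_re, Complex.ofReal_im]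
      exact ⟨mul_pos (by exact_mod_cast Nat.pos_of_ne_zero h1) (Real.exp_pos _), rfl⟩
    · rw [ZZ_eq, hR3, add_sub_cancel_left]
      exact hR1 v hv.le
    · have := Real.add_one_le_exp (EE q a v)
      linarith
  have hmain := L.main
  have hle : ∀ s, MT q s ≠ 0 → s.re ≤ 1 / 2 := by
    intro s hs
    have h1 : DD q a (s - 1 / 2) ≠ 0 := DD_ne.2 (by rwa [add_sub_cancel])
    have h2 := hmain _ h1
    simp at h2
    linarith
  intro s hs
  refine le_antisymm (hle s hs) ?_
  have h1 := (pk_tot (q := q) ha).refl s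
  have h2 := hle (1 - conj s) (by rw [h1]; exact hs)
  simp at h2
  linarith

end Pool.Agent.E8helper14.LI
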